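import Pool.Agent.Helper62.AC.Core

/-!
# MP_917a41_gt: the Borel complexity of `AC_6` (auxiliary definitions and packet statements)
-/

open Set Topology TopologicalSpace Filter

namespace Pool.Agent.Helper62.AC

/-! ## The graphs `H_m` and their realizations -/

/-- Code of the vertex `P a c` (`a ≤ m`, `c < 3`); `P 0 c` is the centre. -/
def vP (m a c : ℕ) : ℕ := if a = 0 then 6 * m + 1 else 6 * (a - 1) + 3 + c

/-- Code of the vertex `Q a c` (`a ≤ m`, `c < 3`); `Q m c` is the outer vertex. -/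
def vQ (m a c : ℕ) : ℕ := if a = m then 6 * m else 6 * a + c

/-- Edge codes: `e = 9 a + 3 k + c` with `k, c < 3`. `k = 0`: spoke from `P a c` to `Q a c`;
`k = 1`: merge from `Q a c` to `P (a+1) c`; `k = 2`: rung from `P (a+1) c` to
`Q a ((c+1) % 3)`. -/
def src (m e : ℕ) : ℕ :=
  if e % 9 / 3 = 0 then vP m (e / 9) (e % 3)
  else if e % 9 / 3 = 1 then vQ m (e / 9) (e % 3)
  else vP m (e / 9 + 1) (e % 3)

/-- The other end of the edge `e`, see `src`. -/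
def dst (m e : ℕ) : ℕ :=
  if e % 9 / 3 = 0 then vQ m (e / 9) (e % 3)
  else if e % 9 / 3 = 1 then vP m (e / 9 + 1) (e % 3)
  else vQ m (e / 9) ((e % 3 + 1) % 3)

/-- `X` is a realization of the graph `H_m` (`6m+2` vertices, `9m+3` edges; `m` nested
hexagons between two centres). -/
structure Realization {Y : Type*} [TopologicalSpace Y] (m : ℕ) (X : Set Y) where
  /-- the vertices -/
  pt : ℕ → Y
  /-- the edges -/
  arc : ℕ → Set Y
  pt_inj : ∀ u < 6 * m + 2, ∀ v < 6 * m + 2, pt u = pt v → u = v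
  isArc : ∀ e < 9 * m + 3, ArcBetween (arc e) (pt (src m e)) (pt (dst m e))
  inter : ∀ e < 9 * m + 3, ∀ f < 9 * m + 3, e ≠ f →
    arc e ∩ arc f ⊆ {pt (src m e), pt (dst m e)} ∩ {pt (src m f), pt (dst m f)}
  union : X = ⋃ e ∈ Finset.range (9 * m + 3), arc e

/-! ## Packet statements -/

/-- Packet A: continuous parameters for a `D₂(Σ₃)` set in a zero-dimensional Polish space. -/
def StmtA : Prop :=
  ∀ (Z : Type) [TopologicalSpace Z] [PolishSpace Z], ZeroDim Z →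
    ∀ B : Set Z, IsD2Sigma3 B →
      ∃ (δ : Z → ℕ → ℝ) (h : Z → ℕ → ℕ → Bool), Continuous δ ∧ Continuous h ∧
        (∀ z n, 0 ≤ δ z n ∧ δ z n ≤ 1) ∧ (∀ z, δ z 0 = 0) ∧
        ∀ z, z ∈ B ↔ (∀ i, {n | h z i n = true}.Finite) ∧ {n | δ z n = 0}.Finite

/-- Packet B: there is a `Σ₃` set which is not `Π₃` in some zero-dimensional Polish space. -/
def StmtB : Prop :=
  ∃ (Z : Type) (_ : TopologicalSpace Z) (_ : PolishSpace Z), ZeroDim Z ∧
    ∃ B : Set Z, IsSigma3 B ∧ ¬ IsPi3 B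

/-- Packet D1: deleting the three rungs of level `a` turns `H_{m+1}` into `H_m`. -/
def StmtD1 : Prop :=
  ∀ (Y : Type) [TopologicalSpace Y] [T2Space Y] (m a : ℕ) (X : Set Y), a ≤ m →
    ∀ R : Realization (m + 1) X, ∃ X' ⊆ X, Nonempty (Realization m X') ∧
      ∀ e < 9 * (m + 1) + 3, (∀ c < 3, e ≠ 9 * a + 6 + c) → R.arc e ⊆ X'

/-- Packet E: `H_m` (`m ≥ 1`) is not 7-arc connected. -/
def StmtE : Prop :=
  ∀ (Y : Type) [TopologicalSpace Y] [T2Space Y] (m : ℕ) (X : Set Y), 1 ≤ m →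
    Realization m X → ¬ NArcConn 7 X

/-- Packet F: three strands with `m` overlaps of each pair of neighbours form `H_m`. -/
def StmtF : Prop :=
  ∀ (Y : Type) [TopologicalSpace Y] [T2Space Y] (m : ℕ) (T : ℕ → ℝ) (σ : ℝ → ℝ)
    (γ : ZMod 3 → ℝ → Y),
    (∀ n ≤ 4 * m, T n < T (n + 1)) → T 0 = 0 → T (4 * m + 1) = 2 →
    (∀ i, ContinuousOn (γ i) (Icc 0 2)) →
    (∀ i j, γ i 0 = γ j 0) → (∀ i j, γ i 2 = γ j 2) →
    (∀ k < m, StrictMonoOn σ (Icc (T (4 * k + 1)) (T (4 * k + 2)))) →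
    (∀ k < m, σ (T (4 * k + 1)) = T (4 * k + 3) ∧ σ (T (4 * k + 2)) = T (4 * k + 4)) →
    (∀ k < m, SurjOn σ (Icc (T (4 * k + 1)) (T (4 * k + 2)))
      (Icc (T (4 * k + 3)) (T (4 * k + 4)))) →
    (∀ k < m, ∀ t ∈ Icc (T (4 * k + 1)) (T (4 * k + 2)), ∀ i, γ (i + 1) t = γ i (σ t)) →
    (∀ i j, ∀ s ∈ Icc (0 : ℝ) 2, ∀ t ∈ Icc (0 : ℝ) 2, γ i s = γ j t →
      (i = j ∧ s = t) ∨ (s = 0 ∧ t = 0) ∨ (s = 2 ∧ t = 2) ∨
      (∃ k < m, i = j + 1 ∧ s ∈ Icc (T (4 * k + 1)) (T (4 * k + 2)) ∧ t = σ s) ∨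
      (∃ k < m, j = i + 1 ∧ t ∈ Icc (T (4 * k + 1)) (T (4 * k + 2)) ∧ s = σ t)) →
    Nonempty (Realization m (⋃ i, γ i '' Icc 0 2))

/-- Packet G1: continuity in the Vietoris topology of unions of a shrinking family of pieces. -/
def StmtG1 : Prop :=
  ∀ (P ι Y : Type) [TopologicalSpace P] [MetricSpace Y] (C : Set Y), IsCompact C → C.Nonempty →
    ∀ (F : ι → P → unitInterval → Y), (∀ k, Continuous fun q : P × unitInterval => F k q.1 q.2) →
    ∀ (ε : ι → ℝ), Tendsto ε cofinite (𝓝 0) → (∀ k p t, ∃ y ∈ C, dist (F k p t) y ≤ ε k) →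
    ∃ K : P → NonemptyCompacts Y, Continuous K ∧ ∀ p, (K p : Set Y) = C ∪ ⋃ k, range (F k p)

/-- Packet G2: connectedness is a closed condition in the Vietoris topology. -/
def StmtG2 : Prop :=
  ∀ (Y : Type) [TopologicalSpace Y] [T2Space Y],
    IsClosed {K : NonemptyCompacts Y | IsConnected (K : Set Y)}

/-- `x` is the end of three arcs in `X` meeting only in `x`. -/
def Tripod {Y : Type*} [TopologicalSpace Y] (X : Set Y) (x : Y) : Prop :=
  ∃ (A : Fin 3 → Set Y) (b : Fin 3 → Y), (∀ i, ArcBetween (A i) x (b i)) ∧ (∀ i, A i ⊆ X) ∧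
    ∀ i j, i ≠ j → A i ∩ A j = {x}

/-- Packet I1: a graph has only finitely many tripod points. -/
def StmtI1 : Prop :=
  ∀ (Y : Type) [TopologicalSpace Y] [T2Space Y] (X : Set Y), IsGraph X → {x | Tripod X x}.Finite

/-- Packet I2: a comb is not contained in a graph. -/
def StmtI2 : Prop :=
  ∀ (Y : Type) [TopologicalSpace Y] [T2Space Y] (X U : Set Y) (v : Y) (f : Y → ℝ) (l : ℕ → ℝ),
    IsOpen U → v ∈ U → v ∈ X → Continuous f → (∀ n, l n < f v) → Tendsto l atTop (𝓝 (f v)) →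
    (∀ n, ∀ x ∈ X ∩ U, f x ≠ l n) → (∀ W, IsOpen W → v ∈ W → ∃ x ∈ X ∩ W, f x < f v) →
    ¬ IsGraph X

/-- Packet J: invariance of the notions under injective continuous images of compact sets. -/
def StmtJ : Prop :=
  ∀ (Y Y' : Type) [TopologicalSpace Y] [T2Space Y] [TopologicalSpace Y'] [T2Space Y']
    (f : Y → Y') (X : Set Y), IsCompact X → ContinuousOn f X → InjOn f X →
    (IsGraph (f '' X) ↔ IsGraph X) ∧ ∀ n, (NArcConn n (f '' X) ↔ NArcConn n X)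

/-- Packet W: the planar gadget for `Π₃`-hardness. `W b` is a subcontinuum of the triangle
`x, y ≥ 0, x + y ≤ 1`, an arc from `(0,0)` to `(1,0)` if every row of `b` has finitely many
ones, and otherwise it contains a comb. -/
def StmtW : Prop :=
  ∃ W : (ℕ → ℕ → Bool) → NonemptyCompacts (ℝ × ℝ), Continuous W ∧
    (∀ b, ∀ q ∈ (W b : Set (ℝ × ℝ)),
      0 ≤ q.1 ∧ 0 ≤ q.2 ∧ q.1 + q.2 ≤ 1 ∧ (q.1 = 0 → q.2 = 0)) ∧
    (∀ b, (∀ i, {n | b i n = true}.Finite) → ∃ w : ℝ → ℝ × ℝ, ContinuousOn w (Icc 0 1) ∧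
      InjOn w (Icc 0 1) ∧ w '' Icc 0 1 = (W b : Set (ℝ × ℝ)) ∧ w 0 = (0, 0) ∧ w 1 = (1, 0)) ∧
    ∀ b, (¬ ∀ i, {n | b i n = true}.Finite) → ∃ (v : ℝ × ℝ) (l : ℕ → ℝ) (t : ℝ),
      v ∈ (W b : Set (ℝ × ℝ)) ∧ 0 < v.1 ∧ v.1 < 1 ∧ v.2 < t ∧ t ≤ 1 ∧ (∀ n, 0 < l n) ∧
      (∀ n, l n < v.1) ∧ Tendsto l atTop (𝓝 v.1) ∧
      (∀ n, ∀ q ∈ (W b : Set (ℝ × ℝ)), q.1 = l n → q.2 = t) ∧
      ∀ ε > 0, ∃ q ∈ (W b : Set (ℝ × ℝ)), q.1 < v.1 ∧ dist q v < ε

/-! ## Basic lemmas on arcs -/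

theorem arcBetween_of_map {Y : Type*} [TopologicalSpace Y] [T2Space Y] {A : Set Y} {a b : Y}
    (γ : unitInterval → Y) (hγ : Continuous γ) (hinj : Function.Injective γ)
    (hr : range γ = A) (h0 : γ 0 = a) (h1 : γ 1 = b) : ArcBetween A a b := by
  subst hr
  have hemb : IsEmbedding γ := (hγ.isClosedEmbedding hinj).isEmbedding
  refine ⟨hemb.toHomeomorph, ?_, ?_⟩
  · simpa using h0
  · simpa using h1

theorem ArcBetween.exists_map {Y : Type*} [TopologicalSpace Y] {A : Set Y} {a b : Y}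
    (h : ArcBetween A a b) : ∃ γ : unitInterval → Y, Continuous γ ∧ Function.Injective γ ∧
      range γ = A ∧ γ 0 = a ∧ γ 1 = b := by
  obtain ⟨h, h0, h1⟩ := h
  refine ⟨fun t => (h t : Y), continuous_subtype_val.comp h.continuous,
    Subtype.val_injective.comp h.injective, ?_, h0, h1⟩
  ext y
  constructor
  · rintro ⟨t, rfl⟩
    exact (h t).2
  · intro hy
    exact ⟨h.symm ⟨y, hy⟩, by simp⟩

theorem ArcBetween.isArc {Y : Type*} [TopologicalSpace Y] {A : Set Y} {a b : Y}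
    (h : ArcBetween A a b) : IsArc A := ⟨h.choose.symm⟩

theorem IsArc.exists_between {Y : Type*} [TopologicalSpace Y] {A : Set Y}
    (h : IsArc A) : ∃ a b, ArcBetween A a b := by
  obtain ⟨h⟩ := h
  exact ⟨_, _, h.symm, rfl, rfl⟩

end Pool.Agent.Helper62.AC
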