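import Pool.Agent.Helper62.AC.Defs

/-!
# Arc lemmas: reversal, concatenation, subarcs, extension along an edge
-/

open Set Topology TopologicalSpace Filter unitInterval

namespace Pool.Agent.Helper62.AC

variable {Y : Type*} [TopologicalSpace Y] [T2Space Y]

theorem ArcBetween.symm {A : Set Y} {a b : Y} (h : ArcBetween A a b) : ArcBetween A b a := by
  obtain ⟨γ, hc, hi, hr, h0, h1⟩ := h.exists_map
  refine arcBetween_of_map (fun t => γ (σ t)) (hc.comp continuous_symm) ?_ ?_ (by simpa) (by simpa)
  · exact hi.comp symm_involutive.injective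
  · rw [← hr]
    exact (symm_involutive.surjective).range_comp γ

theorem ArcBetween.left_mem {A : Set Y} {a b : Y} (h : ArcBetween A a b) : a ∈ A := by
  obtain ⟨γ, hc, hi, hr, h0, h1⟩ := h.exists_map
  rw [← hr, ← h0]
  exact mem_range_self _

theorem ArcBetween.right_mem {A : Set Y} {a b : Y} (h : ArcBetween A a b) : b ∈ A :=
  h.symm.left_mem

theorem ArcBetween.isCompact {A : Set Y} {a b : Y} (h : ArcBetween A a b) : IsCompact A := by
  obtain ⟨γ, hc, hi, hr, h0, h1⟩ := h.exists_map
  rw [← hr]
  exact isCompact_range hc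

theorem ArcBetween.isConnected {A : Set Y} {a b : Y} (h : ArcBetween A a b) : IsConnected A := by
  obtain ⟨γ, hc, hi, hr, h0, h1⟩ := h.exists_map
  rw [← hr]
  exact isConnected_range hc

theorem ArcBetween.ne {A : Set Y} {a b : Y} (h : ArcBetween A a b) : a ≠ b := by
  obtain ⟨γ, hc, hi, hr, h0, h1⟩ := h.exists_map
  rw [← h0, ← h1]
  intro h
  exact zero_ne_one (hi h)

theorem ArcBetween.concat {A B : Set Y} {a b c : Y} (hA : ArcBetween A a b)
    (hB : ArcBetween B b c) (hAB : A ∩ B ⊆ {b}) : ArcBetween (A ∪ B) a c := by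
  obtain ⟨γ, hc, hi, hr, h0, h1⟩ := hA.exists_map
  obtain ⟨η, hc', hi', hr', h0', h1'⟩ := hB.exists_map
  let p : Path a b := ⟨⟨γ, hc⟩, h0, h1⟩
  let q : Path b c := ⟨⟨η, hc'⟩, h0', h1'⟩
  have hp : ∀ t, p t = γ t := fun _ => rfl
  have hq : ∀ t, q t = η t := fun _ => rfl
  have key : ∀ s t : I, (s : ℝ) ≤ 1 / 2 → ¬ (t : ℝ) ≤ 1 / 2 → (p.trans q) s ≠ (p.trans q) t := by
    intro s t hs ht h
    rw [Path.trans_apply, Path.trans_apply, dif_pos hs, dif_neg ht, hp, hq] at h
    have hmem : γ ⟨2 * s, (unitInterval.mul_pos_mem_iff zero_lt_two).2 ⟨s.2.1, hs⟩⟩ ∈ A ∩ B :=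
      ⟨hr ▸ mem_range_self _, h ▸ hr' ▸ mem_range_self _⟩
    have hb := hAB hmem
    rw [mem_singleton_iff] at hb
    rw [h] at hb
    rw [← h0'] at hb
    have := congrArg Subtype.val (hi' hb)
    simp only [Set.Icc.coe_zero] at this
    apply ht
    linarith
  refine arcBetween_of_map (p.trans q) (p.trans q).continuous ?_ ?_ (p.trans q).source
    (p.trans q).target
  · intro s t hst
    by_cases hs : (s : ℝ) ≤ 1 / 2 <;> by_cases ht : (t : ℝ) ≤ 1 / 2
    · rw [Path.trans_apply, Path.trans_apply, dif_pos hs, dif_pos ht, hp, hp] at hst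
      have := congrArg Subtype.val (hi hst)
      simp only at this
      exact Subtype.ext (by linarith)
    · exact absurd hst (key s t hs ht)
    · exact absurd hst.symm (key t s ht hs)
    · rw [Path.trans_apply, Path.trans_apply, dif_neg hs, dif_neg ht, hq, hq] at hst
      have := congrArg Subtype.val (hi' hst)
      simp only at this
      exact Subtype.ext (by linarith)
  · rw [Path.trans_range]
    change range γ ∪ range η = A ∪ B
    rw [hr, hr']

/-- Initial subarcs. -/
theorem subarc_zero {γ : I → Y} (hc : Continuous γ) (hi : Function.Injective γ) {t : I}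
    (ht : 0 < t) : ArcBetween (γ '' Icc 0 t) (γ 0) (γ t) := by
  have hf : Continuous fun u : I => u * t := continuous_mul_right t
  refine arcBetween_of_map (fun u => γ (u * t)) (hc.comp hf) ?_ ?_ (by simp) (by simp)
  · intro u v huv
    have := congrArg Subtype.val (hi huv)
    simp only [Set.Icc.coe_mul] at this
    have ht' : (t : ℝ) ≠ 0 := by
      intro h
      exact ht.ne' (Subtype.ext h)
    exact Subtype.ext (mul_right_cancel₀ ht' this)
  · rw [show (fun u => γ (u * t)) = γ ∘ fun u => u * t from rfl, range_comp]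
    congr 1
    ext x
    simp only [mem_range, mem_Icc, zero_le', true_and]
    constructor
    · rintro ⟨u, rfl⟩
      rw [← Subtype.coe_le_coe, Set.Icc.coe_mul]
      nlinarith [u.2.1, u.2.2, t.2.1, t.2.2]
    · intro hx
      have ht' : 0 < (t : ℝ) := by exact_mod_cast ht
      have hx' : (x : ℝ) ≤ t := by exact_mod_cast hx
      exact ⟨⟨x / t, div_nonneg x.2.1 ht'.le, (div_le_one ht').2 hx'⟩,
        Subtype.ext (div_mul_cancel₀ _ ht'.ne')⟩

/-- Extending an arc along an edge so as to cover the points of a finite set on that edge. -/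
theorem ArcBetween.extend {A E F : Set Y} {a b w : Y} (hA : ArcBetween A a b)
    (hE : ArcBetween E b w) (hAE : A ∩ E ⊆ {b, w}) (hF : F.Finite) :
    ∃ A' z, ArcBetween A' a z ∧ A ⊆ A' ∧ A' ⊆ A ∪ E ∧ F ∩ E ⊆ A' := by
  by_cases hw : w ∈ A
  · obtain ⟨η, hc', hi', hr', h0', h1'⟩ := hE.exists_map
    by_cases hne : (F ∩ E) \ {b, w} = ∅
    · refine ⟨A, b, hA, subset_rfl, subset_union_left, ?_⟩
      intro y hy
      by_contra hyA
      have : y ∈ (F ∩ E) \ {b, w} := by
        refine ⟨hy, ?_⟩
        rintro (rfl | rfl)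
        · exact hyA hA.right_mem
        · exact hyA hw
      rw [hne] at this
      exact this
    · have hfin : (η ⁻¹' ((F ∩ E) \ {b, w})).Finite :=
        Set.Finite.preimage hi'.injOn ((hF.inter_of_left E).sdiff)
      have hnon : (η ⁻¹' ((F ∩ E) \ {b, w})).Nonempty := by
        obtain ⟨y, hy⟩ := nonempty_iff_ne_empty.2 hne
        have : y ∈ range η := hr' ▸ hy.1.2
        obtain ⟨t, rfl⟩ := this
        exact ⟨t, hy⟩
      obtain ⟨t, htm, htmax⟩ := hfin.exists_maximalFor id _ hnon
      have htmax' : ∀ s ∈ η ⁻¹' ((F ∩ E) \ {b, w}), s ≤ t := by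
        intro s hs
        rcases le_total s t with h | h
        · exact h
        · exact htmax hs h
      have ht0 : 0 < t := by
        rcases eq_or_lt_of_le (show (0 : I) ≤ t from zero_le') with h | h
        · exfalso
          apply htm.2
          rw [← h, h0']
          exact mem_insert _ _
        · exact h
      have ht1 : t ≠ 1 := by
        intro h
        apply htm.2
        rw [h, h1']
        exact mem_insert_of_mem _ rfl
      have hsub := subarc_zero hc' hi' ht0
      rw [h0'] at hsub
      have hEs : η '' Icc 0 t ⊆ E := by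
        rw [← hr']
        exact image_subset_range _ _
      refine ⟨A ∪ η '' Icc 0 t, η t, hA.concat hsub ?_, subset_union_left,
        union_subset_union_right _ hEs, ?_⟩
      · rintro y ⟨hyA, hyE⟩
        rcases hAE ⟨hyA, hEs hyE⟩ with h | h
        · exact h
        · exfalso
          obtain ⟨s, hs, hs'⟩ := hyE
          rw [mem_singleton_iff] at h
          rw [h, ← h1'] at hs'
          have := hi' hs'
          subst this
          exact ht1 (le_antisymm le_one' hs.2)
      · intro y hy
        by_cases hyb : y ∈ ({b, w} : Set Y)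
        · left
          rcases hyb with rfl | rfl
          · exact hA.right_mem
          · exact hw
        · right
          have hyr : y ∈ range η := hr' ▸ hy.2
          obtain ⟨s, rfl⟩ := hyr
          exact ⟨s, ⟨zero_le', htmax' s ⟨hy, hyb⟩⟩, rfl⟩
  · refine ⟨A ∪ E, w, hA.concat hE ?_, subset_union_left, subset_rfl, ?_⟩
    · rintro y ⟨hyA, hyE⟩
      rcases hAE ⟨hyA, hyE⟩ with h | h
      · exact h
      · exfalso
        apply hw
        rw [mem_singleton_iff] at h
        exact h ▸ hyA
    · exact fun y hy => Or.inr hy.2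

end Pool.Agent.Helper62.AC
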