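import Pool.Agent.Helper62.AC.Good
import Pool.Agent.Helper62.AC.Arcs

/-!
# Bad parameters: infinitely many tripods, or a comb
-/

open Set Topology TopologicalSpace Filter

namespace Pool.Agent.Helper62.AC

/-- Arcs parametrised by real intervals. -/
theorem arcBetween_Icc {Y : Type*} [TopologicalSpace Y] [T2Space Y] {γ : ℝ → Y} {a b : ℝ}
    (hab : a < b) (hc : ContinuousOn γ (Icc a b)) (hi : InjOn γ (Icc a b)) :
    ArcBetween (γ '' Icc a b) (γ a) (γ b) := by
  have hmem : ∀ u : unitInterval, a + u * (b - a) ∈ Icc a b := by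
    intro u
    have h0 := u.2.1
    have h1 := u.2.2
    constructor
    · nlinarith
    · nlinarith
  refine arcBetween_of_map (fun u : unitInterval => γ (a + u * (b - a))) ?_ ?_ ?_ (by simp)
    (by simp)
  · exact hc.comp_continuous (by fun_prop) hmem
  · intro u v huv
    have := hi (hmem u) (hmem v) huv
    have h3 : (u : ℝ) * (b - a) = v * (b - a) := by linarith
    exact Subtype.ext (mul_right_cancel₀ (by linarith) h3)
  · ext y
    constructor
    · rintro ⟨u, rfl⟩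
      exact ⟨_, hmem u, rfl⟩
    · rintro ⟨s, hs, rfl⟩
      have hba : 0 < b - a := by linarith
      refine ⟨⟨(s - a) / (b - a), div_nonneg (by linarith [hs.1]) hba.le,
        (div_le_one hba).2 (by linarith [hs.2])⟩, ?_⟩
      simp only
      congr 1
      field_simp
      ring

variable {δ : ℕ → unitInterval}

theorem injOn_St (i : ZMod 3) : InjOn (St δ i) (Ioc 0 1) := by
  intro s hs t ht h
  have hne : i ≠ i + 1 := by
    intro h
    have : (1 : ZMod 3) = 0 := by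
      have := h.symm
      rwa [add_eq_left] at this
    exact absurd this (by decide)
  rcases le_total s t with hst | hst
  · rcases inner_kernel hs.1 hst ht.2 h with h' | ⟨l, _, h', _⟩
    · exact h'.2
    · exact absurd h' hne
  · rcases inner_kernel ht.1 hst hs.2 h.symm with h' | ⟨l, _, h', _⟩
    · exact h'.2.symm
    · exact absurd h' hne

theorem arc_St (i : ZMod 3) {x y : ℝ} (hy : 1 ≤ y) (hxy : y < x) :
    ArcBetween (St δ i '' Icc (1 / x) (1 / y)) (St δ i (1 / x)) (St δ i (1 / y)) := by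
  have hy0 : 0 < y := by linarith
  have hx0 : 0 < x := by linarith
  refine arcBetween_Icc (one_div_lt_one_div_of_lt hy0 hxy) (continuous_St' δ i).continuousOn
    ((injOn_St i).mono ?_)
  intro s hs
  refine ⟨lt_of_lt_of_le (one_div_pos.2 hx0) hs.1, hs.2.trans ?_⟩
  rw [div_le_iff₀ hy0]
  linarith

theorem one_div_mem_iff {x y s : ℝ} (hs : 0 < s) (hx : 0 < x) (hy : 0 < y) :
    s ∈ Icc (1 / x) (1 / y) ↔ y ≤ 1 / s ∧ 1 / s ≤ x := by
  constructor
  · rintro ⟨h1, h2⟩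
    constructor
    · rw [le_div_iff₀ hy] at h2
      rw [le_div_iff₀ hs]
      linarith
    · rw [div_le_iff₀ hx] at h1
      rw [div_le_iff₀ hs]
      linarith
  · rintro ⟨h1, h2⟩
    constructor
    · rw [div_le_iff₀ hs] at h2
      rw [div_le_iff₀ hx]
      linarith
    · rw [le_div_iff₀ hs] at h1
      rw [le_div_iff₀ hy]
      linarith

theorem tripod_mk {Y : Type*} [TopologicalSpace Y] [T2Space Y] {X A0 A1 A2 : Set Y}
    {x b0 b1 b2 : Y} (h0 : ArcBetween A0 x b0) (h1 : ArcBetween A1 x b1) (h2 : ArcBetween A2 x b2)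
    (s0 : A0 ⊆ X) (s1 : A1 ⊆ X) (s2 : A2 ⊆ X) (h01 : A0 ∩ A1 ⊆ {x}) (h02 : A0 ∩ A2 ⊆ {x})
    (h12 : A1 ∩ A2 ⊆ {x}) : Tripod X x := by
  have e01 : A0 ∩ A1 = {x} :=
    Subset.antisymm h01 (singleton_subset_iff.2 ⟨h0.left_mem, h1.left_mem⟩)
  have e02 : A0 ∩ A2 = {x} :=
    Subset.antisymm h02 (singleton_subset_iff.2 ⟨h0.left_mem, h2.left_mem⟩)
  have e12 : A1 ∩ A2 = {x} :=
    Subset.antisymm h12 (singleton_subset_iff.2 ⟨h1.left_mem, h2.left_mem⟩)
  refine ⟨![A0, A1, A2], ![b0, b1, b2], ?_, ?_, ?_⟩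
  · intro i
    fin_cases i
    · exact h0
    · exact h1
    · exact h2
  · intro i
    fin_cases i
    · exact s0
    · exact s1
    · exact s2
  · intro i j hij
    fin_cases i <;> fin_cases j
    · exact absurd rfl hij
    · exact e01
    · exact e02
    · exact (inter_comm _ _).trans e01
    · exact absurd rfl hij
    · exact e12
    · exact (inter_comm _ _).trans e02
    · exact (inter_comm _ _).trans e12
    · exact absurd rfl hij

/-- Each merged ring has a tripod point. -/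
theorem tripod_St {X : Set ℂ} (h0X : St δ 0 '' Icc 0 1 ⊆ X) (h1X : St δ 1 '' Icc 0 1 ⊆ X) {l : ℕ}
    (hl : δ l = 0) : Tripod X (St δ 1 (1 / ((l : ℝ) + 7 / 4))) := by
  have hl0 : (0 : ℝ) ≤ l := Nat.cast_nonneg l
  have hov : St δ 1 (1 / ((l : ℝ) + 7 / 4)) = St δ 0 (1 / ((l : ℝ) + 17 / 12)) := by
    have h := St_overlap hl (t := 1 / ((l : ℝ) + 7 / 4)) le_rfl
      (one_div_le_one_div_of_le (by linarith) (by linarith)) 0
    rw [zero_add] at h
    rw [h]
    congr 1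
    unfold sig
    rw [one_div_one_div]
    congr 1
    ring
  have hA0 := (arc_St (δ := δ) 1 (x := (l : ℝ) + 11 / 6) (y := (l : ℝ) + 7 / 4) (by linarith)
    (by linarith)).symm
  have hA1 := (arc_St (δ := δ) 0 (x := (l : ℝ) + 3 / 2) (y := (l : ℝ) + 17 / 12) (by linarith)
    (by linarith)).symm
  have hA2 := arc_St (δ := δ) 0 (x := (l : ℝ) + 17 / 12) (y := (l : ℝ) + 5 / 4) (by linarith)
    (by linarith)
  rw [← hov] at hA1 hA2
  have hsub : ∀ {x y : ℝ}, 1 ≤ y → y < x → Icc (1 / x) (1 / y) ⊆ Icc (0 : ℝ) 1 := by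
    intro x y hy hxy s hs
    have hy0 : 0 < y := by linarith
    have hx0 : 0 < x := by linarith
    refine ⟨(one_div_pos.2 hx0).le.trans hs.1, hs.2.trans ?_⟩
    rw [div_le_iff₀ hy0]
    linarith
  have key : ∀ {x y : ℝ}, 1 ≤ y → y < x → x ≤ (l : ℝ) + 3 / 2 →
      St δ 1 '' Icc (1 / ((l : ℝ) + 11 / 6)) (1 / ((l : ℝ) + 7 / 4)) ∩
        St δ 0 '' Icc (1 / x) (1 / y) ⊆ {St δ 1 (1 / ((l : ℝ) + 7 / 4))} := by
    rintro x y hy hxy hx z ⟨⟨s, hs, rfl⟩, ⟨t, ht, hts⟩⟩
    have hs0 : 0 < s := lt_of_lt_of_le (one_div_pos.2 (by linarith)) hs.1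
    have ht0 : 0 < t := lt_of_lt_of_le (one_div_pos.2 (by linarith)) ht.1
    have ht1 : t ≤ 1 := (hsub hy hxy ht).2
    have hs' := (one_div_mem_iff hs0 (by linarith) (by linarith)).1 hs
    have ht' := (one_div_mem_iff ht0 (by linarith) (by linarith)).1 ht
    have hst : s ≤ t := by
      have : 1 / t ≤ 1 / s := by linarith
      exact (one_div_le_one_div ht0 hs0).1 this
    rcases inner_kernel hs0 hst ht1 hts.symm with h' | ⟨l', _, _, h1, h2, _⟩
    · exact absurd h'.1 (by decide)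
    · have h3 := (one_div_mem_iff hs0 (by positivity) (by positivity)).1 ⟨h1, h2⟩
      have hll : l = l' := by
        have h4 : (l : ℝ) < l' + 1 := by linarith
        have h5 : (l' : ℝ) < l + 1 := by linarith
        have h4' : l < l' + 1 := by exact_mod_cast h4
        have h5' : l' < l + 1 := by exact_mod_cast h5
        omega
      subst hll
      have h6 : 1 / s = l + 7 / 4 := le_antisymm h3.2 hs'.1
      have h7 : s = 1 / ((l : ℝ) + 7 / 4) := by rw [← h6, one_div_one_div]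
      rw [h7]
      rfl
  have key2 : St δ 0 '' Icc (1 / ((l : ℝ) + 3 / 2)) (1 / ((l : ℝ) + 17 / 12)) ∩
      St δ 0 '' Icc (1 / ((l : ℝ) + 17 / 12)) (1 / ((l : ℝ) + 5 / 4)) ⊆
      {St δ 1 (1 / ((l : ℝ) + 7 / 4))} := by
    rintro z ⟨⟨s, hs, rfl⟩, ⟨t, ht, hts⟩⟩
    have hs0 : 0 < s := lt_of_lt_of_le (one_div_pos.2 (by linarith)) hs.1
    have ht0 : 0 < t := lt_of_lt_of_le (one_div_pos.2 (by linarith)) ht.1
    have hs1 : s ≤ 1 := (hsub (by linarith) (by linarith) hs).2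
    have ht1 : t ≤ 1 := (hsub (by linarith) (by linarith) ht).2
    have hst := injOn_St 0 ⟨ht0, ht1⟩ ⟨hs0, hs1⟩ hts
    subst hst
    have : t = 1 / ((l : ℝ) + 17 / 12) := le_antisymm hs.2 ht.1
    rw [hov, this]
    rfl
  exact tripod_mk hA0 hA1 hA2 ((image_mono (hsub (by linarith) (by linarith))).trans h1X)
    ((image_mono (hsub (by linarith) (by linarith))).trans h0X)
    ((image_mono (hsub (by linarith) (by linarith))).trans h0X)
    (key (by linarith) (by linarith) le_rfl) (key (by linarith) (by linarith) (by linarith)) key2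

/-- Infinitely many merged rings: not a graph. -/
theorem not_isGraph_of_infinite (hI1 : StmtI1) {X : Set ℂ} (h0X : St δ 0 '' Icc 0 1 ⊆ X)
    (h1X : St δ 1 '' Icc 0 1 ⊆ X) (hinf : ¬ {l | δ l = 0}.Finite) : ¬ IsGraph X := by
  intro hX
  have hfin := hI1 ℂ X hX
  apply hinf
  refine Set.Finite.of_finite_image (f := fun l : ℕ => St δ 1 (1 / ((l : ℝ) + 7 / 4)))
    (hfin.subset ?_) ?_
  · rintro _ ⟨l, hl, rfl⟩
    exact tripod_St h0X h1X hl
  · intro l _ l' _ h
    have hm : ∀ l : ℕ, 1 / ((l : ℝ) + 7 / 4) ∈ Ioc (0 : ℝ) 1 := by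
      intro l
      have hl0 : (0 : ℝ) ≤ l := Nat.cast_nonneg l
      refine ⟨one_div_pos.2 (by linarith), ?_⟩
      rw [div_le_iff₀ (by linarith)]
      linarith
    have h1 := injOn_St 1 (hm l) (hm l') h
    have h2 : (l : ℝ) + 7 / 4 = l' + 7 / 4 := by
      have := congrArg (fun x : ℝ => 1 / x) h1
      simpa using this
    exact_mod_cast (by linarith : (l : ℝ) = l')

/-- A comb in the gadget: not a graph. -/
theorem not_isGraph_of_comb (hI2 : StmtI2) {X : Set ℂ} {W : Set (ℝ × ℝ)}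
    (hX : X = St δ 0 '' Icc 0 1 ∪ St δ 1 '' Icc 0 2 ∪ St δ 2 '' Icc 0 2 ∪ Psi '' W)
    (hW : ∀ q ∈ W, 0 ≤ q.1 ∧ 0 ≤ q.2 ∧ q.1 + q.2 ≤ 1 ∧ (q.1 = 0 → q.2 = 0))
    {v : ℝ × ℝ} {l : ℕ → ℝ} {t : ℝ} (hv : v ∈ W) (hv0 : 0 < v.1) (hv1 : v.1 < 1) (hvt : v.2 < t)
    (ht1 : t ≤ 1) (hl0 : ∀ n, 0 < l n) (hlv : ∀ n, l n < v.1) (hlim : Tendsto l atTop (𝓝 v.1))
    (hlev : ∀ n, ∀ q ∈ W, q.1 = l n → q.2 = t)
    (hcl : ∀ ε > 0, ∃ q ∈ W, q.1 < v.1 ∧ dist q v < ε) : ¬ IsGraph X := by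
  have hvW := hW v hv
  have hvX : Psi v ∈ X := by rw [hX]; exact Or.inr ⟨v, hv, rfl⟩
  have hSne : ∀ i : ZMod 3, i ≠ 0 → Psi v ∉ St δ i '' Icc 0 2 := by
    rintro i hi ⟨s, hs, hsv⟩
    rcases eq_or_lt_of_le hs.1 with h0 | h0
    · rw [← h0, St_zero] at hsv
      have := norm_Psi hvW.1
      rw [← hsv, norm_zero] at this
      linarith
    · rcases Psi_eq_St h0 hs.2 (fun h => absurd h hi) hvW.1 hvW.2.1 hvW.2.2.1 hvW.2.2.2 hsv.symm
        with h | h
      · exact hi h.2.2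
      · have : v.1 = 1 := by rw [h.1]
        linarith
  -- the closed set to be avoided
  set D : Set ℂ := St δ 1 '' Icc 0 2 ∪ St δ 2 '' Icc 0 2 ∪ Psi '' (Icc 0 1 ×ˢ {t}) with hD
  have hDc : IsCompact D := by
    refine ((isCompact_Icc.image (continuous_St' δ 1)).union
      (isCompact_Icc.image (continuous_St' δ 2))).union ?_
    exact (isCompact_Icc.prod isCompact_singleton).image continuous_Psi
  have hvD : Psi v ∉ D := by
    rintro ((h | h) | ⟨q, hq, hqv⟩)
    · exact hSne 1 (by decide) h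
    · exact hSne 2 (by decide) h
    · obtain ⟨hq1, hq2⟩ := hq
      rw [mem_singleton_iff] at hq2
      have := Psi_inj hq1.1 (by rw [hq2]; linarith) (by rw [hq2]; exact ht1) hvW.1 hvW.2.1
        (by linarith) hqv
      rw [this] at hq2
      linarith
  have hnv : ‖Psi v‖ = 1 + v.1 := norm_Psi hvW.1
  refine hI2 ℂ X Dᶜ (Psi v) (fun z => ‖z‖) (fun n => 1 + l n) hDc.isClosed.isOpen_compl hvD hvX
    continuous_norm ?_ ?_ ?_ ?_
  · intro n
    rw [hnv]
    linarith [hlv n]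
  · rw [hnv]
    exact hlim.const_add 1
  · rintro n x ⟨hxX, hxD⟩ hx
    rw [hX] at hxX
    rcases hxX with ((h | h) | h) | h
    · obtain ⟨s, hs, rfl⟩ := h
      have hle : ‖St δ 0 s‖ ≤ 1 := by
        rcases eq_or_lt_of_le hs.1 with h0 | h0
        · rw [← h0, St_zero, norm_zero]
          exact zero_le_one
        · rw [norm_St h0]
          exact rr_le_one hs.2
      rw [hx] at hle
      linarith [hl0 n]
    · exact hxD (Or.inl (Or.inl h))
    · exact hxD (Or.inl (Or.inr h))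
    · obtain ⟨q, hq, rfl⟩ := h
      have hqW := hW q hq
      rw [norm_Psi hqW.1] at hx
      have hq1 : q.1 = l n := by linarith
      have hq2 := hlev n q hq hq1
      exact hxD (Or.inr ⟨q, ⟨⟨hqW.1, by linarith⟩, hq2⟩, rfl⟩)
  · intro U hU hvU
    have hpre : Psi ⁻¹' U ∈ 𝓝 v := (hU.preimage continuous_Psi).mem_nhds hvU
    rw [Metric.mem_nhds_iff] at hpre
    obtain ⟨ε, hε, hball⟩ := hpre
    obtain ⟨q, hq, hq1, hq2⟩ := hcl ε hε
    refine ⟨Psi q, ⟨?_, hball (Metric.mem_ball.2 hq2)⟩, ?_⟩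
    · rw [hX]; exact Or.inr ⟨q, hq, rfl⟩
    · rw [norm_Psi (hW q hq).1, hnv]
      linarith

end Pool.Agent.Helper62.AC
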