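import Pool.Agent.Helper62.AC.Defs

/-!
# Certificates: paths in the graphs `H_m`, `m ≤ 6`, and the kernel-checked covering property
-/

namespace Pool.Agent.Helper62.AC

/-- A certificate: start vertex, extra edge at the start, extra edge at the end, and the edges
of a path from the start vertex in reversed order. -/
abbrev Cert : Type := ℕ × ℕ × ℕ × List ℕ

/-- Follow the path (edges in reversed order) from `v₁`: returns the end vertex and the visited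
vertices. -/
def run (m v₁ : ℕ) : List ℕ → Option (ℕ × List ℕ)
  | [] => some (v₁, [v₁])
  | f :: L =>
    match run m v₁ L with
    | none => none
    | some (v, vis) =>
      if Nat.ble (f + 1) (9 * m + 3) && Nat.beq (src m f) v && !(vis.elem (dst m f)) then
        some (dst m f, dst m f :: vis)
      else if Nat.ble (f + 1) (9 * m + 3) && Nat.beq (dst m f) v && !(vis.elem (src m f)) then
        some (src m f, src m f :: vis)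
      else none

/-- Is the certificate a path with two extra edges at its ends? -/
def okCert (m : ℕ) (c : Cert) : Bool :=
  match run m c.1 c.2.2.2 with
  | none => false
  | some (v, _) =>
    Nat.ble (c.1 + 1) (6 * m + 2) &&
    Nat.ble (c.2.1 + 1) (9 * m + 3) && Nat.ble (c.2.2.1 + 1) (9 * m + 3) &&
    (Nat.beq (src m c.2.1) c.1 || Nat.beq (dst m c.2.1) c.1) &&
    (Nat.beq (src m c.2.2.1) v || Nat.beq (dst m c.2.2.1) v) &&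
    !(c.2.2.2.elem c.2.1) && !(c.2.2.2.elem c.2.2.1) && !(Nat.beq c.2.1 c.2.2.1) &&
    !(c.2.2.2.isEmpty)

/-- Bit mask of a list of edges. -/
def maskOf : List ℕ → ℕ
  | [] => 0
  | e :: L => Nat.lor (2 ^ e) (maskOf L)

/-- The edges of a certificate. -/
def Cert.edges (c : Cert) : List ℕ := c.2.1 :: c.2.2.1 :: c.2.2.2

/-- Union of masks. -/
def orAll : List ℕ → ℕ
  | [] => 0
  | x :: L => Nat.lor x (orAll L)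

/-- Every set of at most `r` edges from `es` is contained in one of the masks. -/
def allCover (full : ℕ) : List ℕ → ℕ → List ℕ → Bool
  | _, 0, masks => !masks.isEmpty
  | [], 1, masks => !masks.isEmpty
  | _ :: _, 1, masks => Nat.beq (orAll masks) full
  | [], _ + 2, masks => !masks.isEmpty
  | e :: es, r + 2, masks =>
    allCover full es (r + 2) masks && allCover full es (r + 1) (masks.filter fun x => x.testBit e)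

/-- Every set of at most `r` edges from `es` with a rung in every level `< a` is contained in one
of the masks. -/
def rungCover (full : ℕ) (es : List ℕ) : ℕ → ℕ → List ℕ → Bool
  | 0, r, masks => allCover full es r masks
  | _ + 1, 0, _ => true
  | a + 1, r + 1, masks =>
    rungCover full es a r (masks.filter fun x => x.testBit (9 * a + 6)) &&
    rungCover full es a r (masks.filter fun x => x.testBit (9 * a + 7)) &&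
    rungCover full es a r (masks.filter fun x => x.testBit (9 * a + 8))

/-- All edge codes below `n`, in decreasing order. -/
def edgesBelow : ℕ → List ℕ
  | 0 => []
  | n + 1 => n :: edgesBelow n

/-- Certificates for `H_0`. -/
def certs0 : List Cert := [
  (1, 0, 2, [1])]

/-- Certificates for `H_1`. -/
def certs1 : List Cert := [
  (4, 10, 7, [2, 0, 8, 11, 9, 6, 4]),
  (3, 6, 3, [8, 5, 2, 1, 4, 10, 9]),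
  (4, 7, 10, [11, 5, 2, 0, 3, 6, 4]),
  (4, 7, 8, [3, 9, 11, 5, 2, 1, 4]),
  (4, 4, 10, [9, 6, 1, 0, 8, 5, 7]),
  (7, 0, 11, [10, 7, 5, 8, 3, 6, 1]),
  (3, 3, 5, [2, 0, 8, 11, 10, 4, 6]),
  (6, 9, 0, [1, 6, 3, 8, 5, 7, 10]),
  (4, 4, 1, [6, 9, 11, 8, 0, 2, 7]),
  (3, 9, 7, [2, 1, 4, 10, 11, 8, 3]),
  (6, 9, 10, [7, 2, 1, 6, 3, 8, 11]),
  (4, 7, 0, [3, 6, 1, 2, 5, 11, 10]),
  (5, 5, 1, [6, 9, 10, 7, 2, 0, 8]),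
  (7, 0, 2, [7, 10, 11, 8, 3, 6, 1]),
  (0, 3, 4, [7, 5, 11, 9, 6, 1, 0]),
  (1, 1, 3, [0, 2, 5, 11, 9, 6]),
  (6, 10, 7, [4, 1, 2, 5, 8, 3, 9]),
  (2, 5, 2, [0, 8, 11, 9, 6, 4, 7]),
  (4, 7, 0, [2, 5, 8, 3, 6, 4]),
  (4, 4, 0, [1, 6, 3, 8, 11, 10]),
  (0, 0, 8, [5, 2, 1, 4, 10, 9, 3]),
  (6, 9, 11, [5, 2, 0, 3, 6, 4, 10]),
  (1, 6, 11, [9, 3, 8, 5, 7, 4]),
  (5, 5, 4, [7, 2, 1, 6, 3, 8]),
  (7, 1, 2, [5, 11, 10, 4, 6, 3, 0]),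
  (3, 9, 7, [5, 11, 10, 4, 1, 0, 3]),
  (6, 10, 4, [7, 2, 1, 6, 3, 8, 11]),
  (4, 10, 11, [9, 6, 1, 0, 8, 5, 7]),
  (6, 9, 0, [2, 7, 4, 6, 3, 8, 11]),
  (6, 10, 1, [4, 7, 2, 0, 3, 9]),
  (0, 8, 10, [4, 1, 2, 5, 11, 9, 3]),
  (5, 8, 5, [7, 4, 1, 0, 3, 9, 11]),
  (1, 1, 8, [0, 2, 5, 11, 9, 6]),
  (0, 8, 7, [5, 11, 10, 4, 6, 3]),
  (7, 2, 11, [10, 7, 5, 8, 3, 6, 1]),
  (7, 0, 9, [3, 8, 11, 10, 4, 1]),
  (1, 1, 2, [0, 3, 9, 11, 5, 7, 4]),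
  (3, 6, 11, [8, 0, 1, 4, 10, 9]),
  (7, 1, 11, [10, 4, 6, 3, 8, 5, 2]),
  (3, 3, 10, [11, 8, 0, 2, 7, 4, 6]),
  (0, 3, 4, [6, 9, 10, 7, 2, 0]),
  (1, 6, 7, [10, 9, 3, 8, 5, 2, 1]),
  (4, 7, 9, [6, 1, 2, 5, 11, 10])]

/-- Certificates for `H_2`. -/
def certs2 : List Cert := [
  (7, 13, 0, [2, 7, 4, 6, 3, 8, 11, 16, 19, 20, 17, 12, 15]),
  (6, 17, 20, [14, 16, 19, 18, 15, 10, 7, 5, 8, 0, 1, 6, 9]),
  (10, 13, 6, [1, 2, 7, 10, 15, 18, 20, 17, 9, 3, 8, 11, 16]),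
  (13, 0, 5, [7, 10, 15, 12, 17, 20, 19, 16, 11, 8, 3, 6, 1]),
  (11, 14, 0, [8, 11, 16, 19, 18, 15, 10, 7, 2, 1, 6, 9, 17]),
  (13, 2, 18, [20, 14, 16, 13, 15, 12, 9, 6, 4, 7, 5, 8, 0]),
  (13, 0, 19, [18, 15, 13, 16, 14, 17, 9, 3, 8, 5, 7, 4, 1]),
  (4, 4, 18, [12, 17, 20, 19, 16, 11, 8, 3, 6, 1, 2, 7]),
  (7, 15, 1, [0, 3, 6, 4, 7, 5, 11, 14, 17, 12, 18, 19, 13]),
  (5, 8, 18, [19, 16, 14, 17, 12, 15, 10, 4, 6, 3, 0, 2, 5]),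
  (5, 5, 11, [16, 13, 15, 18, 20, 17, 9, 6, 4, 7, 2, 0, 8]),
  (5, 5, 17, [12, 18, 20, 14, 16, 13, 10, 7, 2, 1, 6, 3, 8]),
  (2, 7, 17, [20, 18, 12, 9, 6, 4, 10, 13, 16, 11, 8, 0, 2]),
  (9, 15, 4, [1, 2, 7, 10, 13, 19, 20, 14, 11, 8, 3, 9, 12]),
  (3, 9, 16, [14, 17, 12, 18, 19, 13, 10, 7, 5, 8, 0, 1, 6]),
  (0, 3, 4, [10, 15, 18, 19, 16, 14, 17, 9, 6, 1, 2, 5, 8]),
  (10, 16, 4, [7, 2, 1, 6, 3, 8, 11, 14, 17, 12, 15, 13]),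
  (10, 16, 6, [1, 2, 7, 10, 15, 12, 9, 3, 8, 11, 14, 20, 19]),
  (4, 7, 10, [15, 12, 17, 20, 19, 16, 11, 5, 2, 0, 3, 6, 4]),
  (6, 17, 12, [15, 13, 19, 20, 14, 11, 8, 0, 2, 7, 4, 6, 9]),
  (9, 12, 3, [0, 1, 6, 9, 17, 20, 19, 16, 11, 5, 7, 10, 15]),
  (4, 10, 16, [14, 20, 19, 13, 15, 12, 9, 6, 1, 0, 8, 5, 7]),
  (0, 3, 4, [7, 5, 11, 16, 13, 15, 18, 20, 17, 9, 6, 1, 0]),
  (0, 8, 13, [19, 18, 15, 10, 4, 6, 9, 17, 14, 11, 5, 2, 0]),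
  (13, 1, 11, [16, 19, 20, 17, 12, 15, 10, 4, 6, 3, 8, 5, 2]),
  (11, 20, 13, [10, 7, 2, 1, 6, 3, 8, 11, 16, 19, 18, 12, 17]),
  (2, 7, 13, [19, 18, 15, 10, 4, 1, 0, 3, 9, 17, 14, 11, 5]),
  (4, 7, 0, [8, 5, 2, 1, 6, 9, 17, 14, 16, 19, 18, 15, 10]),
  (4, 7, 16, [13, 15, 18, 20, 14, 11, 5, 2, 0, 3, 6, 4]),
  (13, 0, 14, [20, 18, 12, 9, 3, 8, 11, 16, 13, 10, 4, 1]),
  (1, 4, 12, [9, 3, 8, 11, 16, 19, 18, 15, 10, 7, 2, 1]),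
  (2, 2, 8, [11, 16, 13, 15, 18, 20, 17, 9, 3, 0, 1, 4, 7]),
  (8, 14, 1, [6, 3, 0, 2, 7, 10, 15, 12, 17, 20, 19, 16]),
  (0, 8, 12, [15, 10, 4, 1, 2, 5, 11, 16, 19, 20, 17, 9, 3]),
  (2, 7, 17, [14, 11, 8, 3, 9, 12, 18, 19, 13, 10, 4, 1, 2]),
  (4, 7, 14, [16, 13, 15, 18, 20, 17, 9, 3, 8, 5, 2, 1, 4]),
  (3, 6, 4, [1, 0, 8, 5, 7, 10, 15, 18, 19, 16, 14, 17, 9]),
  (7, 15, 17, [12, 18, 20, 14, 11, 8, 3, 6, 1, 2, 7, 10]),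
  (6, 12, 10, [4, 6, 3, 0, 2, 5, 11, 16, 13, 15, 18, 20, 17]),
  (7, 15, 8, [3, 6, 1, 2, 5, 11, 14, 17, 12, 18, 19, 13]),
  (5, 11, 16, [14, 17, 12, 18, 19, 13, 10, 4, 6, 3, 0, 2, 5]),
  (8, 11, 16, [13, 10, 7, 5, 8, 0, 1, 6, 9, 12, 18, 20, 14]),
  (10, 19, 0, [2, 7, 4, 6, 3, 8, 11, 14, 20, 18, 15, 13]),
  (11, 14, 4, [10, 15, 12, 9, 6, 1, 0, 8, 11, 16, 19, 20]),
  (11, 17, 6, [1, 2, 7, 10, 13, 19, 18, 12, 9, 3, 8, 11, 14]),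
  (12, 19, 3, [0, 2, 7, 4, 6, 9, 12, 15, 13, 16, 14, 20]),
  (2, 7, 10, [4, 6, 9, 17, 20, 18, 15, 13, 16, 11, 8, 0, 2]),
  (1, 4, 13, [16, 14, 17, 12, 15, 10, 7, 5, 8, 3, 6]),
  (7, 15, 6, [1, 0, 3, 9, 12, 18, 19, 16, 11, 5, 7, 10]),
  (12, 20, 9, [17, 14, 11, 5, 2, 0, 3, 6, 4, 10, 13, 19]),
  (5, 11, 5, [2, 1, 4, 10, 15, 18, 19, 16, 14, 17, 9, 3, 8]),
  (7, 13, 7, [4, 1, 2, 5, 11, 16, 19, 20, 17, 12, 15]),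
  (6, 9, 0, [1, 6, 3, 8, 5, 7, 10, 15, 18, 19, 16, 14, 17]),
  (0, 0, 19, [18, 15, 13, 16, 14, 17, 9, 6, 1, 2, 5, 8]),
  (9, 15, 12, [17, 14, 11, 8, 3, 6, 1, 2, 7, 10, 13, 19, 18]),
  (1, 4, 16, [11, 8, 3, 9, 17, 20, 19, 13, 10, 7, 2, 1]),
  (9, 18, 15, [10, 7, 2, 1, 6, 3, 8, 11, 16, 19, 20, 17, 12]),
  (12, 18, 2, [7, 4, 1, 0, 8, 11, 16, 13, 15, 12, 17, 20]),
  (13, 0, 15, [12, 17, 14, 16, 13, 10, 7, 5, 8, 3, 6, 1]),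
  (6, 17, 8, [3, 6, 4, 7, 5, 11, 14, 20, 19, 13, 15, 12]),
  (13, 1, 17, [12, 18, 20, 14, 16, 13, 10, 4, 6, 3, 8, 5, 2]),
  (10, 16, 14, [11, 8, 0, 2, 7, 4, 6, 9, 17, 20, 18, 15, 13]),
  (7, 13, 14, [17, 9, 6, 4, 7, 2, 0, 8, 11, 16, 19, 18, 15]),
  (4, 4, 0, [8, 11, 16, 13, 15, 18, 20, 17, 9, 6, 1, 2, 7]),
  (9, 12, 0, [1, 4, 7, 5, 8, 3, 9, 17, 14, 16, 13, 15]),
  (8, 14, 4, [6, 3, 0, 2, 7, 10, 15, 12, 17, 20, 19, 16]),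
  (13, 2, 17, [14, 11, 5, 7, 10, 13, 19, 18, 12, 9, 6, 1]),
  (3, 9, 3, [0, 2, 5, 11, 16, 19, 20, 17, 12, 15, 10, 4, 6]),
  (12, 20, 3, [6, 4, 7, 2, 0, 8, 11, 14, 17, 12, 15, 13, 19]),
  (6, 12, 9, [6, 4, 7, 2, 0, 8, 11, 16, 13, 15, 18, 20, 17]),
  (7, 13, 8, [3, 6, 1, 2, 5, 11, 16, 19, 20, 17, 12, 15]),
  (11, 14, 10, [15, 18, 19, 16, 11, 5, 7, 4, 1, 0, 3, 9, 17]),
  (9, 15, 7, [10, 13, 16, 11, 5, 2, 1, 6, 9, 17, 20, 18]),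
  (10, 13, 1, [0, 8, 11, 14, 17, 9, 6, 4, 10, 15, 18, 19]),
  (4, 4, 13, [15, 18, 19, 16, 14, 17, 9, 6, 1, 0, 8, 5, 7]),
  (13, 1, 17, [20, 19, 13, 15, 12, 9, 6, 4, 7, 5, 8, 0])]

/-- Certificates for `H_3`. -/
def certs3 : List Cert := [
  (18, 28, 1, [0, 8, 5, 7, 4, 6, 9, 17, 14, 16, 13, 15, 18, 26, 23, 25, 22, 24, 27]),
  (17, 23, 29, [28, 25, 20, 17, 12, 15, 10, 7, 2, 1, 6, 3, 8, 11, 16, 19, 24, 21, 26]),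
  (7, 10, 27, [24, 19, 16, 11, 8, 0, 2, 7, 4, 6, 9, 17, 20, 25, 28, 29, 26, 18, 15]),
  (12, 21, 2, [0, 3, 6, 4, 7, 5, 11, 16, 13, 15, 12, 17, 20, 25, 22, 24, 27, 29, 26]),
  (4, 10, 18, [26, 29, 27, 24, 22, 25, 20, 17, 12, 15, 13, 16, 11, 8, 3, 6, 1, 2, 7]),
  (18, 27, 5, [8, 3, 6, 1, 2, 7, 10, 15, 12, 17, 14, 16, 19, 24, 21, 26, 23, 25, 28]),
  (4, 7, 29, [27, 24, 22, 25, 23, 26, 18, 15, 13, 16, 14, 17, 9, 3, 8, 5, 2, 1, 4]),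
  (9, 12, 22, [24, 21, 26, 29, 28, 25, 20, 17, 9, 6, 4, 7, 2, 0, 8, 11, 16, 13, 15]),
  (6, 17, 26, [29, 28, 25, 20, 14, 16, 19, 24, 21, 18, 15, 10, 7, 5, 8, 0, 1, 6, 9]),
  (11, 14, 25, [23, 29, 28, 22, 24, 21, 18, 15, 13, 16, 11, 8, 0, 2, 7, 4, 6, 9, 17]),
  (3, 9, 16, [14, 17, 12, 18, 26, 23, 25, 28, 27, 24, 19, 13, 10, 7, 5, 8, 0, 1, 6]),
  (12, 26, 0, [2, 5, 8, 3, 6, 4, 10, 15, 12, 17, 14, 16, 19, 22, 25, 23, 29, 27, 21]),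
  (16, 22, 5, [7, 10, 15, 18, 26, 23, 20, 17, 9, 6, 1, 0, 8, 11, 16, 19, 24, 27, 28]),
  (12, 18, 3, [6, 4, 7, 2, 0, 8, 11, 14, 17, 12, 15, 13, 19, 24, 27, 28, 25, 23, 26]),
  (13, 24, 16, [13, 15, 12, 9, 6, 4, 7, 2, 0, 8, 11, 14, 20, 23, 26, 21, 27, 28, 22]),
  (13, 19, 4, [7, 2, 1, 6, 3, 8, 11, 16, 13, 15, 12, 17, 20, 25, 28, 29, 26, 21, 24]),
  (6, 9, 7, [5, 8, 3, 6, 4, 10, 15, 18, 26, 23, 25, 28, 27, 24, 19, 16, 14, 17]),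
  (15, 21, 3, [8, 11, 16, 19, 22, 25, 20, 17, 9, 6, 1, 2, 7, 10, 15, 18, 26, 29, 27]),
  (17, 23, 8, [5, 7, 4, 1, 0, 3, 9, 12, 15, 13, 16, 14, 20, 25, 22, 24, 21, 26]),
  (1, 4, 27, [29, 23, 25, 22, 24, 21, 18, 12, 17, 14, 16, 13, 10, 7, 5, 8, 3, 6]),
  (5, 11, 8, [0, 1, 6, 9, 17, 14, 16, 19, 24, 27, 28, 25, 23, 26, 18, 15, 10, 7, 5]),
  (4, 10, 0, [8, 11, 14, 20, 25, 28, 29, 26, 21, 24, 19, 13, 15, 12, 9, 6, 1, 2, 7]),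
  (18, 28, 19, [16, 11, 8, 3, 6, 1, 2, 7, 10, 15, 12, 17, 20, 25, 22, 24, 21, 26, 29]),
  (6, 17, 0, [2, 5, 8, 3, 6, 4, 10, 13, 16, 14, 20, 25, 22, 24, 27, 29, 26, 18, 12]),
  (16, 25, 18, [15, 13, 16, 11, 8, 0, 2, 7, 4, 6, 9, 17, 20, 23, 26, 21, 24, 22]),
  (11, 17, 3, [0, 1, 6, 9, 12, 15, 10, 7, 5, 11, 16, 19, 24, 21, 26, 29, 28, 25, 20]),
  (4, 10, 8, [0, 2, 5, 11, 16, 13, 15, 18, 26, 29, 27, 24, 22, 25, 20, 17, 9, 6, 4]),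
  (16, 22, 0, [2, 7, 4, 6, 3, 8, 11, 14, 17, 12, 15, 13, 19, 24, 21, 26, 29, 28]),
  (14, 20, 5, [7, 4, 6, 3, 8, 11, 14, 17, 12, 15, 13, 19, 24, 21, 26, 29, 28, 25]),
  (12, 18, 6, [4, 7, 5, 8, 3, 9, 12, 15, 13, 16, 14, 20, 25, 22, 24, 27, 29, 26]),
  (1, 4, 1, [2, 7, 10, 15, 12, 17, 20, 25, 28, 29, 26, 21, 24, 19, 16, 11, 8, 3, 6]),
  (10, 19, 24, [22, 25, 23, 29, 27, 21, 18, 15, 10, 7, 5, 8, 0, 1, 6, 9, 17, 14, 16]),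
  (0, 0, 27, [29, 26, 21, 24, 22, 25, 20, 17, 9, 6, 1, 2, 7, 10, 13, 16, 11, 8]),
  (17, 23, 8, [11, 16, 19, 24, 27, 28, 25, 20, 17, 9, 3, 0, 2, 7, 10, 15, 18, 26]),
  (16, 25, 5, [7, 4, 6, 3, 8, 11, 16, 13, 15, 12, 17, 20, 23, 26, 21, 27, 28]),
  (18, 29, 10, [7, 5, 8, 0, 1, 6, 9, 17, 14, 16, 13, 15, 18, 26, 23, 25, 22, 24, 27]),
  (11, 14, 29, [27, 21, 26, 23, 25, 22, 19, 16, 11, 8, 3, 6, 1, 2, 7, 10, 15, 12, 17]),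
  (14, 20, 6, [4, 7, 2, 0, 3, 9, 17, 14, 16, 13, 15, 18, 26, 29, 27, 24, 22, 25]),
  (15, 24, 19, [22, 25, 20, 17, 9, 6, 4, 7, 2, 0, 8, 11, 16, 13, 15, 18, 26, 29, 27]),
  (6, 12, 18, [15, 10, 7, 2, 1, 6, 3, 8, 11, 16, 19, 24, 21, 26, 29, 28, 25, 20, 17]),
  (11, 20, 14, [16, 19, 24, 27, 28, 25, 23, 26, 18, 15, 10, 7, 5, 8, 0, 1, 6, 9, 17]),
  (8, 14, 11, [8, 3, 6, 1, 2, 7, 10, 15, 12, 17, 20, 25, 28, 29, 26, 21, 24, 19, 16]),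
  (10, 13, 4, [6, 9, 17, 20, 25, 22, 24, 27, 29, 26, 18, 15, 10, 7, 2, 0, 8, 11, 16]),
  (3, 9, 11, [16, 19, 24, 21, 26, 29, 28, 25, 20, 17, 12, 15, 10, 4, 1, 2, 5, 8, 3]),
  (16, 22, 3, [6, 1, 0, 8, 5, 7, 10, 15, 12, 17, 14, 16, 19, 24, 21, 26, 23, 25]),
  (10, 16, 23, [26, 21, 27, 28, 25, 20, 14, 11, 8, 0, 2, 7, 4, 6, 9, 12, 15, 13])]

/-- Certificates for `H_4`. -/
def certs4 : List Cert := [
  (13, 22, 3, [6, 4, 7, 2, 0, 8, 11, 16, 13, 15, 12, 17, 20, 25, 28, 33, 30, 35, 38, 37, 34, 29,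
    26, 21, 24]),
  (22, 31, 38, [36, 33, 28, 25, 23, 26, 18, 15, 10, 7, 5, 8, 0, 1, 6, 9, 17, 14, 16, 19, 24, 27,
    35, 32, 34]),
  (17, 23, 37, [36, 33, 31, 34, 32, 35, 27, 24, 22, 25, 20, 17, 9, 6, 4, 7, 2, 0, 8, 11, 16, 13,
    15, 18, 26]),
  (25, 2, 36, [37, 34, 32, 35, 30, 33, 28, 25, 23, 26, 21, 24, 19, 16, 14, 17, 12, 15, 10, 7, 5,
    8, 3, 6, 1]),
  (10, 19, 12, [17, 20, 25, 22, 24, 27, 35, 38, 36, 33, 31, 34, 29, 26, 18, 15, 10, 7, 2, 1, 6,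
    3, 8, 11, 16]),
  (6, 17, 21, [24, 19, 16, 14, 20, 25, 28, 33, 30, 35, 38, 37, 34, 29, 26, 18, 15, 10, 7, 5, 8,
    0, 1, 6, 9]),
  (4, 4, 23, [25, 22, 24, 27, 35, 38, 36, 33, 31, 34, 29, 26, 18, 15, 13, 16, 14, 17, 9, 6, 1, 0,
    8, 5, 7]),
  (9, 12, 7, [2, 0, 8, 11, 16, 19, 24, 21, 26, 29, 34, 37, 38, 35, 30, 33, 28, 25, 20, 17, 9, 6,
    4, 10, 15]),
  (22, 34, 5, [7, 10, 15, 18, 26, 29, 32, 35, 27, 24, 19, 16, 11, 8, 0, 1, 6, 9, 17, 20, 25, 28,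
    33, 36, 37]),
  (4, 10, 21, [26, 29, 34, 31, 33, 36, 38, 35, 27, 24, 22, 25, 20, 17, 12, 15, 13, 16, 11, 8, 3,
    6, 1, 2, 7]),
  (11, 14, 6, [1, 2, 7, 10, 15, 18, 26, 23, 25, 28, 33, 36, 37, 34, 32, 35, 27, 24, 19, 16, 11,
    8, 3, 9, 17]),
  (23, 32, 27, [24, 22, 25, 20, 17, 9, 6, 4, 7, 2, 0, 8, 11, 16, 13, 15, 18, 26, 29, 34, 31, 33,
    30, 35]),
  (17, 23, 16, [11, 8, 0, 2, 7, 4, 6, 9, 17, 20, 25, 28, 33, 36, 37, 34, 32, 35, 27, 24, 19, 13,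
    15, 18, 26])]

/-- Certificates for `H_5`. -/
def certs5 : List Cert := [
  (17, 23, 22, [24, 27, 35, 32, 34, 37, 42, 45, 46, 43, 41, 44, 36, 33, 28, 25, 20, 17, 9, 6, 4,
    7, 2, 0, 8, 11, 16, 13, 15, 18, 26]),
  (16, 28, 40, [42, 39, 44, 47, 46, 43, 38, 35, 30, 33, 31, 34, 29, 26, 21, 24, 19, 16, 11, 8, 3,
    6, 1, 2, 7, 10, 15, 12, 17, 20, 25]),
  (23, 35, 20, [25, 28, 33, 30, 27, 24, 19, 16, 14, 17, 9, 6, 1, 0, 8, 5, 7, 10, 15, 18, 26, 29,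
    34, 37, 42, 39, 44, 47, 46, 43, 38])]

/-- Certificates for `H_6`. -/
def certs6 : List Cert := [
  (4, 10, 3, [8, 11, 16, 13, 15, 18, 26, 29, 34, 31, 33, 36, 44, 47, 52, 49, 51, 54, 56, 53, 45,
    42, 40, 43, 38, 35, 27, 24, 22, 25, 20, 17, 9, 6, 1, 2, 7])]

theorem certs0_ok : (certs0.all fun c => okCert 0 c) = true := by decide +kernel

theorem certs1_ok : (certs1.all fun c => okCert 1 c) = true := by decide +kernel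

theorem certs2_ok : (certs2.all fun c => okCert 2 c) = true := by decide +kernel

theorem certs3_ok : (certs3.all fun c => okCert 3 c) = true := by decide +kernel

theorem certs4_ok : (certs4.all fun c => okCert 4 c) = true := by decide +kernel

theorem certs5_ok : (certs5.all fun c => okCert 5 c) = true := by decide +kernel

theorem certs6_ok : (certs6.all fun c => okCert 6 c) = true := by decide +kernel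

theorem certs0_cover : rungCover (2 ^ 3 - 1) (edgesBelow 3) 0 6
    (certs0.map fun c => maskOf c.edges) = true := by decide +kernel

theorem certs1_cover : rungCover (2 ^ 12 - 1) (edgesBelow 12) 1 6
    (certs1.map fun c => maskOf c.edges) = true := by decide +kernel

theorem certs2_cover : rungCover (2 ^ 21 - 1) (edgesBelow 21) 2 6
    (certs2.map fun c => maskOf c.edges) = true := by decide +kernel

theorem certs3_cover : rungCover (2 ^ 30 - 1) (edgesBelow 30) 3 6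
    (certs3.map fun c => maskOf c.edges) = true := by decide +kernel

theorem certs4_cover : rungCover (2 ^ 39 - 1) (edgesBelow 39) 4 6
    (certs4.map fun c => maskOf c.edges) = true := by decide +kernel

theorem certs5_cover : rungCover (2 ^ 48 - 1) (edgesBelow 48) 5 6
    (certs5.map fun c => maskOf c.edges) = true := by decide +kernel

theorem certs6_cover : rungCover (2 ^ 57 - 1) (edgesBelow 57) 6 6
    (certs6.map fun c => maskOf c.edges) = true := by decide +kernel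

end Pool.Agent.Helper62.AC
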