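import Mathlib

/-!
# MP_917a41_gt: the Borel complexity of `AC_6` (definitions used in the final statement)
-/

open Set Topology TopologicalSpace Filter

namespace Pool.Agent.Helper62.AC

/-- `A` is an arc in `Y` with end points `a` and `b`: there is a homeomorphism `[0,1] → A` taking
`0` to `a` and `1` to `b`. -/
def ArcBetween {Y : Type*} [TopologicalSpace Y] (A : Set Y) (a b : Y) : Prop :=
  ∃ h : unitInterval ≃ₜ A, (h 0 : Y) = a ∧ (h 1 : Y) = b

/-- `A` is an arc: a subspace homeomorphic to `[0,1]`. -/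
def IsArc {Y : Type*} [TopologicalSpace Y] (A : Set Y) : Prop :=
  Nonempty (A ≃ₜ unitInterval)

/-- `X` is `n`-arc connected: any `n` points of `X` lie on an arc contained in `X`. -/
def NArcConn {Y : Type*} [TopologicalSpace Y] (n : ℕ) (X : Set Y) : Prop :=
  ∀ x : Fin n → Y, (∀ i, x i ∈ X) → ∃ A ⊆ X, IsArc A ∧ ∀ i, x i ∈ A

/-- `X` is a graph: connected and a finite union of arcs meeting only in end points. -/
def IsGraph {Y : Type*} [TopologicalSpace Y] (X : Set Y) : Prop :=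
  IsConnected X ∧ ∃ (n : ℕ) (A : Fin n → Set Y) (a b : Fin n → Y),
    (∀ i, ArcBetween (A i) (a i) (b i)) ∧ X = ⋃ i, A i ∧
      ∀ i j, i ≠ j → A i ∩ A j ⊆ {a i, b i} ∩ {a j, b j}

/-- The cube `I^N`. -/
abbrev Cube (N : ℕ) : Type := Fin N → unitInterval

/-- The hyperspace `C(I^N)` of subcontinua of the cube, with the Vietoris topology
(Mathlib's topology on `NonemptyCompacts` is the Vietoris topology). -/
abbrev Subcontinua (N : ℕ) : Type :=
  {K : NonemptyCompacts (Cube N) // IsConnected (K : Set (Cube N))}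

/-- `AC_n`: the subcontinua of `I^N` which are graphs, `n`-arc connected and not
`(n+1)`-arc connected. -/
def ACset (N n : ℕ) : Set (Subcontinua N) :=
  {K | IsGraph (K.1 : Set (Cube N)) ∧ NArcConn n (K.1 : Set (Cube N)) ∧
    ¬ NArcConn (n + 1) (K.1 : Set (Cube N))}

/-- `Π₃` sets: countable intersections of `F_σ` sets. -/
def IsPi3 {Z : Type*} [TopologicalSpace Z] (A : Set Z) : Prop :=
  ∃ F : ℕ → ℕ → Set Z, (∀ i j, IsClosed (F i j)) ∧ A = ⋂ i, ⋃ j, F i j

/-- `Σ₃` sets: countable unions of `G_δ` sets. -/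
def IsSigma3 {Z : Type*} [TopologicalSpace Z] (A : Set Z) : Prop :=
  ∃ U : ℕ → ℕ → Set Z, (∀ i j, IsOpen (U i j)) ∧ A = ⋃ i, ⋂ j, U i j

/-- `D₂(Σ₃)` sets: intersections of a `Π₃` set and a `Σ₃` set. -/
def IsD2Sigma3 {Z : Type*} [TopologicalSpace Z] (A : Set Z) : Prop :=
  ∃ P S : Set Z, IsPi3 P ∧ IsSigma3 S ∧ A = P ∩ S

/-- `Z` has a basis of clopen sets. -/
def ZeroDim (Z : Type*) [TopologicalSpace Z] : Prop :=
  IsTopologicalBasis {s : Set Z | IsClopen s}

/-- `A` is `D₂(Σ₃)`-hard: every `D₂(Σ₃)` subset of a zero-dimensional Polish space reduces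
continuously to `A`. -/
def D2Sigma3Hard {X : Type*} [TopologicalSpace X] (A : Set X) : Prop :=
  ∀ (Z : Type) [TopologicalSpace Z] [PolishSpace Z], ZeroDim Z →
    ∀ B : Set Z, IsD2Sigma3 B → ∃ f : Z → X, Continuous f ∧ f ⁻¹' A = B

end Pool.Agent.Helper62.AC
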