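import Pool.Agent.Helper62.AC.Strands

/-!
# Good parameters give realizations of `H_m`
-/

open Set Topology TopologicalSpace Filter

namespace Pool.Agent.Helper62.AC

/-- The strands with the gadget inserted in the outer part of strand `0`. -/
noncomputable def gam (δ : ℕ → unitInterval) (w : ℝ → ℝ × ℝ) (i : ZMod 3) (s : ℝ) : ℂ :=
  if i = 0 ∧ 1 < s then Psi (w (s - 1)) else St δ i s

theorem gam_of_le {δ : ℕ → unitInterval} {w : ℝ → ℝ × ℝ} {i : ZMod 3} {s : ℝ} (h : s ≤ 1) :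
    gam δ w i s = St δ i s := by
  unfold gam
  rw [if_neg]
  rintro ⟨_, h'⟩
  linarith

theorem gam_of_ne {δ : ℕ → unitInterval} {w : ℝ → ℝ × ℝ} {i : ZMod 3} {s : ℝ} (h : i ≠ 0) :
    gam δ w i s = St δ i s := by
  unfold gam
  rw [if_neg]
  rintro ⟨h', _⟩
  exact h h'

theorem gam_zero_of_gt {δ : ℕ → unitInterval} {w : ℝ → ℝ × ℝ} {s : ℝ} (h : 1 < s) :
    gam δ w 0 s = Psi (w (s - 1)) := by
  unfold gam
  rw [if_pos ⟨rfl, h⟩]

theorem St_zero_one (δ : ℕ → unitInterval) : St δ 0 1 = Psi (0, 0) := by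
  rw [St_of_pos (by norm_num), rr_of_ge le_rfl, an_of_le le_rfl, aa_of_ge le_rfl, ZMod.val_zero]
  unfold Psi
  norm_num

theorem Psi_one_zero : Psi (1, 0) = 2 := by
  unfold Psi pol ee
  norm_num

theorem gam_zero_of_ge {δ : ℕ → unitInterval} {w : ℝ → ℝ × ℝ} (hw0 : w 0 = (0, 0)) {s : ℝ}
    (h : 1 ≤ s) : gam δ w 0 s = Psi (w (s - 1)) := by
  rcases eq_or_lt_of_le h with rfl | h
  · rw [gam_of_le le_rfl, sub_self, hw0, St_zero_one]
  · exact gam_zero_of_gt h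

/-- Denominators of the break points. -/
noncomputable def Dn (ell : ℕ → ℕ) (j : ℕ) : ℝ := (ell (j / 4) : ℝ) + 7 / 4 - ((j % 4 : ℕ) : ℝ) / 6

/-- Break points. -/
noncomputable def Tn (ell : ℕ → ℕ) (m : ℕ) : ℕ → ℝ
  | 0 => 0
  | j + 1 => if j < 4 * m then 1 / Dn ell j else 2

theorem Dn_pos (ell : ℕ → ℕ) (j : ℕ) : 5 / 4 ≤ Dn ell j := by
  unfold Dn
  have h1 : (0 : ℝ) ≤ ell (j / 4) := Nat.cast_nonneg _
  have h2 : ((j % 4 : ℕ) : ℝ) ≤ 3 := by
    have : j % 4 ≤ 3 := by omega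
    exact_mod_cast this
  linarith

theorem Dn_add (ell : ℕ → ℕ) (k r : ℕ) (hr : r < 4) :
    Dn ell (4 * k + r) = (ell k : ℝ) + 7 / 4 - (r : ℝ) / 6 := by
  unfold Dn
  rw [show (4 * k + r) / 4 = k by omega, show (4 * k + r) % 4 = r by omega]

theorem Dn_succ_lt {ell : ℕ → ℕ} {m : ℕ} (hell : ∀ k, k + 1 < m → ell (k + 1) < ell k) {j : ℕ}
    (hj : j + 1 < 4 * m) : Dn ell (j + 1) < Dn ell j := by
  obtain ⟨k, r, hr, rfl⟩ : ∃ k r, r < 4 ∧ j = 4 * k + r :=
    ⟨j / 4, j % 4, by omega, by omega⟩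
  rcases Nat.lt_or_ge r 3 with h | h
  · rw [show 4 * k + r + 1 = 4 * k + (r + 1) by ring, Dn_add _ _ _ (by omega), Dn_add _ _ _ hr]
    push_cast
    linarith
  · have : r = 3 := by omega
    subst this
    rw [show 4 * k + 3 + 1 = 4 * (k + 1) + 0 by ring, Dn_add _ _ _ (by omega),
      Dn_add _ _ _ (by omega)]
    have h1 : (ell (k + 1) : ℝ) + 1 ≤ ell k := by exact_mod_cast hell k (by omega)
    push_cast
    linarith

theorem Tn_of_lt {ell : ℕ → ℕ} {m j : ℕ} (h : j < 4 * m) : Tn ell m (j + 1) = 1 / Dn ell j := by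
  simp only [Tn]
  rw [if_pos h]

theorem Tn_last (ell : ℕ → ℕ) (m : ℕ) : Tn ell m (4 * m + 1) = 2 := by
  simp only [Tn]
  rw [if_neg (lt_irrefl _)]

theorem Tn_lt {ell : ℕ → ℕ} {m : ℕ} (hell : ∀ k, k + 1 < m → ell (k + 1) < ell k) :
    ∀ n ≤ 4 * m, Tn ell m n < Tn ell m (n + 1) := by
  intro n hn
  rcases n with _ | j
  · rcases Nat.lt_or_ge 0 (4 * m) with h | h
    · rw [Tn_of_lt h]
      simp only [Tn]
      have := Dn_pos ell 0
      exact one_div_pos.2 (by linarith)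
    · have h0 : m = 0 := by omega
      subst h0
      rw [show 0 + 1 = 4 * 0 + 1 by rfl, Tn_last]
      simp [Tn]
  · rw [Tn_of_lt (show j < 4 * m by omega)]
    rcases Nat.lt_or_ge (j + 1) (4 * m) with h | h
    · rw [Tn_of_lt h]
      have := Dn_pos ell (j + 1)
      exact one_div_lt_one_div_of_lt (by linarith) (Dn_succ_lt hell h)
    · have : j + 1 + 1 = 4 * m + 1 := by omega
      rw [this, Tn_last]
      have := Dn_pos ell j
      rw [div_lt_iff₀ (by linarith)]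
      linarith

theorem sig_strictMonoOn {a b : ℝ} (ha : 0 < a) (hb : b < 3) : StrictMonoOn sig (Icc a b) := by
  intro s hs t ht hst
  unfold sig
  have hs0 : 0 < s := ha.trans_le hs.1
  have ht0 : 0 < t := ha.trans_le ht.1
  have h1 : 1 / t < 1 / s := one_div_lt_one_div_of_lt hs0 hst
  have h2 : 1 / 3 < 1 / t := one_div_lt_one_div_of_lt ht0 (ht.2.trans_lt hb)
  exact one_div_lt_one_div_of_lt (by linarith) (by linarith)

/-- Enumeration of the merged rings, from the centre outwards. -/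
theorem exists_enum {δ : ℕ → unitInterval} (hfin : {l | δ l = 0}.Finite)
    (hne : {l | δ l = 0}.Nonempty) : ∃ (m : ℕ) (ell : ℕ → ℕ), 1 ≤ m ∧
      (∀ k, k + 1 < m → ell (k + 1) < ell k) ∧ (∀ k < m, δ (ell k) = 0) ∧
      ∀ l, δ l = 0 → ∃ k < m, ell k = l := by
  set Z := hfin.toFinset with hZ
  have hZne : Z.Nonempty := by
    obtain ⟨l, hl⟩ := hne
    exact ⟨l, by simpa [hZ] using hl⟩
  have hm : 1 ≤ Z.card := hZne.card_pos
  refine ⟨Z.card, fun k => if h : k < Z.card then Z.orderEmbOfFin rfl ⟨Z.card - 1 - k, by omega⟩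
    else 0, hm, ?_, ?_, ?_⟩
  · intro k hk
    simp only
    rw [dif_pos hk, dif_pos (by omega)]
    apply (Z.orderEmbOfFin rfl).strictMono
    rw [Fin.lt_def]
    simp only
    omega
  · intro k hk
    simp only
    rw [dif_pos hk]
    have := Z.orderEmbOfFin_mem rfl ⟨Z.card - 1 - k, by omega⟩
    exact hfin.mem_toFinset.1 this
  · intro l hl
    have hl' : l ∈ Z := by simpa [hZ] using hl
    have : l ∈ Set.range (Z.orderEmbOfFin rfl) := by
      rw [Finset.range_orderEmbOfFin]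
      exact hl'
    obtain ⟨⟨k, hk⟩, hk'⟩ := this
    refine ⟨Z.card - 1 - k, by omega, ?_⟩
    simp only
    rw [dif_pos (by omega)]
    rw [← hk']
    congr 1
    rw [Fin.mk.injEq]
    omega

variable {δ : ℕ → unitInterval} {w : ℝ → ℝ × ℝ}

theorem continuousOn_gam (hwc : ContinuousOn w (Icc 0 1)) (hw0 : w 0 = (0, 0)) (i : ZMod 3) :
    ContinuousOn (gam δ w i) (Icc 0 2) := by
  by_cases hi : i = 0
  · subst hi
    have h : Icc (0 : ℝ) 2 = Icc 0 1 ∪ Icc 1 2 := (Icc_union_Icc_eq_Icc (by norm_num)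
      (by norm_num)).symm
    rw [h]
    refine ContinuousOn.union_of_isClosed ?_ ?_ isClosed_Icc isClosed_Icc
    · exact (continuous_St' δ 0).continuousOn.congr fun s hs => gam_of_le hs.2
    · refine ContinuousOn.congr (f := fun s => Psi (w (s - 1))) ?_ fun s hs =>
        gam_zero_of_ge hw0 hs.1
      refine continuous_Psi.comp_continuousOn (hwc.comp (by fun_prop) ?_)
      intro s hs
      exact ⟨by linarith [hs.1], by linarith [hs.2]⟩
  · exact (continuous_St' δ i).continuousOn.congr fun s _ => gam_of_ne hi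

theorem gam_zero (i : ZMod 3) : gam δ w i 0 = 0 := by
  rw [gam_of_le zero_le_one, St_zero]

theorem gam_two (hw1 : w 1 = (1, 0)) (i : ZMod 3) : gam δ w i 2 = 2 := by
  by_cases hi : i = 0
  · subst hi
    rw [gam_zero_of_gt (by norm_num), show (2 : ℝ) - 1 = 1 by norm_num, hw1, Psi_one_zero]
  · rw [gam_of_ne hi, St_two]

theorem iUnion_gam (hw0 : w 0 = (0, 0)) : (⋃ i, gam δ w i '' Icc 0 2) =
    St δ 0 '' Icc 0 1 ∪ St δ 1 '' Icc 0 2 ∪ St δ 2 '' Icc 0 2 ∪ Psi '' (w '' Icc 0 1) := by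
  have hu : (⋃ i, gam δ w i '' Icc (0 : ℝ) 2) = gam δ w 0 '' Icc 0 2 ∪ gam δ w 1 '' Icc 0 2 ∪
      gam δ w 2 '' Icc 0 2 := by
    ext y
    simp only [mem_iUnion, mem_union]
    constructor
    · rintro ⟨i, hi⟩
      have : i = 0 ∨ i = 1 ∨ i = 2 := by
        have : ∀ i : ZMod 3, i = 0 ∨ i = 1 ∨ i = 2 := by decide
        exact this i
      rcases this with rfl | rfl | rfl
      · exact Or.inl (Or.inl hi)
      · exact Or.inl (Or.inr hi)
      · exact Or.inr hi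
    · rintro ((h | h) | h)
      · exact ⟨0, h⟩
      · exact ⟨1, h⟩
      · exact ⟨2, h⟩
  rw [hu]
  have h1 : gam δ w 1 '' Icc (0 : ℝ) 2 = St δ 1 '' Icc 0 2 :=
    image_congr fun s _ => gam_of_ne (by decide)
  have h2 : gam δ w 2 '' Icc (0 : ℝ) 2 = St δ 2 '' Icc 0 2 :=
    image_congr fun s _ => gam_of_ne (by decide)
  have h0 : gam δ w 0 '' Icc (0 : ℝ) 2 = St δ 0 '' Icc 0 1 ∪ Psi '' (w '' Icc 0 1) := by
    have h : Icc (0 : ℝ) 2 = Icc 0 1 ∪ Icc 1 2 := (Icc_union_Icc_eq_Icc (by norm_num)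
      (by norm_num)).symm
    rw [h, image_union]
    congr 1
    · exact image_congr fun s hs => gam_of_le hs.2
    · rw [← image_comp]
      ext y
      constructor
      · rintro ⟨s, hs, rfl⟩
        exact ⟨s - 1, ⟨by linarith [hs.1], by linarith [hs.2]⟩, (gam_zero_of_ge hw0 hs.1).symm⟩
      · rintro ⟨v, hv, rfl⟩
        refine ⟨v + 1, ⟨by linarith [hv.1], by linarith [hv.2]⟩, ?_⟩
        rw [gam_zero_of_ge hw0 (by linarith [hv.1])]
        simp
  rw [h0, h1, h2]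
  ext y
  simp only [mem_union]
  tauto

/-- Coincidences of the strands with gadget. -/
theorem gam_kernel (hwi : InjOn w (Icc 0 1)) (hw0 : w 0 = (0, 0)) (hw1 : w 1 = (1, 0))
    (htri : ∀ v ∈ Icc (0 : ℝ) 1, 0 ≤ (w v).1 ∧ 0 ≤ (w v).2 ∧ (w v).1 + (w v).2 ≤ 1 ∧
      ((w v).1 = 0 → (w v).2 = 0)) {i j : ZMod 3} {s t : ℝ} (hs : s ∈ Icc (0 : ℝ) 2)
    (ht : t ∈ Icc (0 : ℝ) 2) (h : gam δ w i s = gam δ w j t) :
    (i = j ∧ s = t) ∨ (s = 0 ∧ t = 0) ∨ (s = 2 ∧ t = 2) ∨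
      (∃ l : ℕ, δ l = 0 ∧ i = j + 1 ∧ 1 / ((l : ℝ) + 7 / 4) ≤ s ∧ s ≤ 1 / ((l : ℝ) + 19 / 12) ∧
        t = sig s) ∨
      (∃ l : ℕ, δ l = 0 ∧ j = i + 1 ∧ 1 / ((l : ℝ) + 7 / 4) ≤ t ∧ t ≤ 1 / ((l : ℝ) + 19 / 12) ∧
        s = sig t) := by
  have hw_mem : ∀ {s : ℝ}, 1 < s → s ∈ Icc (0 : ℝ) 2 → s - 1 ∈ Icc (0 : ℝ) 1 := fun h1 h2 =>
    ⟨by linarith, by linarith [h2.2]⟩
  have hnz : ∀ {i : ZMod 3} {s : ℝ}, 0 < s → s ∈ Icc (0 : ℝ) 2 → gam δ w i s ≠ 0 := by
    intro i s h1 h2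
    by_cases hi : i = 0 ∧ 1 < s
    · obtain ⟨rfl, h3⟩ := hi
      rw [gam_zero_of_gt h3, ← norm_ne_zero_iff, norm_Psi (htri _ (hw_mem h3 h2)).1]
      have := (htri _ (hw_mem h3 h2)).1
      linarith
    · unfold gam
      rw [if_neg hi]
      exact St_ne_zero h1
  have hbig : ∀ {i : ZMod 3} {s : ℝ}, 1 < s → s ∈ Icc (0 : ℝ) 2 → 1 < ‖gam δ w i s‖ := by
    intro i s h1 h2
    by_cases hi : i = 0
    · subst hi
      have htr := htri _ (hw_mem h1 h2)
      rw [gam_zero_of_gt h1, norm_Psi htr.1]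
      have hne : (w (s - 1)).1 ≠ 0 := by
        intro h0
        have h3 : w (s - 1) = w 0 := by
          rw [hw0]
          exact Prod.ext h0 (htr.2.2.2 h0)
        have := hwi (hw_mem h1 h2) ⟨le_rfl, zero_le_one⟩ h3
        linarith
      have := lt_of_le_of_ne htr.1 (Ne.symm hne)
      linarith
    · rw [gam_of_ne hi, norm_St (by linarith), rr_of_ge h1.le]
      exact h1
  have hsmall : ∀ {i : ZMod 3} {s : ℝ}, s ≤ 1 → s ∈ Icc (0 : ℝ) 2 → ‖gam δ w i s‖ ≤ 1 := by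
    intro i s h1 h2
    rw [gam_of_le h1]
    rcases eq_or_lt_of_le h2.1 with h3 | h3
    · rw [← h3, St_zero, norm_zero]
      exact zero_le_one
    · rw [norm_St h3]
      exact rr_le_one h1
  rcases eq_or_lt_of_le hs.1 with hs0 | hs0
  · -- s = 0
    subst hs0
    rw [gam_zero] at h
    right; left
    refine ⟨rfl, ?_⟩
    by_contra ht0
    exact hnz (lt_of_le_of_ne ht.1 (Ne.symm ht0)) ht h.symm
  rcases eq_or_lt_of_le ht.1 with ht0 | ht0
  · subst ht0
    rw [gam_zero] at h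
    exact absurd h (hnz hs0 hs)
  rcases le_or_gt s 1 with hs1 | hs1 <;> rcases le_or_gt t 1 with ht1 | ht1
  · rw [gam_of_le hs1, gam_of_le ht1] at h
    rcases le_total s t with hst | hst
    · rcases inner_kernel hs0 hst ht1 h with h' | h'
      · exact Or.inl h'
      · exact Or.inr (Or.inr (Or.inr (Or.inl h')))
    · rcases inner_kernel ht0 hst hs1 h.symm with h' | h'
      · exact Or.inl ⟨h'.1.symm, h'.2.symm⟩
      · exact Or.inr (Or.inr (Or.inr (Or.inr h')))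
  · have h1 := hbig (i := j) ht1 ht
    have h2 := hsmall (i := i) hs1 hs
    rw [h] at h2
    linarith
  · have h1 := hbig (i := i) hs1 hs
    have h2 := hsmall (i := j) ht1 ht
    rw [← h] at h2
    linarith
  · by_cases hi : i = 0 <;> by_cases hj : j = 0
    · subst hi; subst hj
      rw [gam_zero_of_gt hs1, gam_zero_of_gt ht1] at h
      have hs' := htri _ (hw_mem hs1 hs)
      have ht' := htri _ (hw_mem ht1 ht)
      have := hwi (hw_mem hs1 hs) (hw_mem ht1 ht)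
        (Psi_inj hs'.1 hs'.2.1 (by linarith) ht'.1 ht'.2.1 (by linarith) h)
      exact Or.inl ⟨rfl, by linarith⟩
    · subst hi
      rw [gam_zero_of_gt hs1, gam_of_ne hj] at h
      have hs' := htri _ (hw_mem hs1 hs)
      rcases Psi_eq_St ht0 ht.2 (fun h0 => absurd h0 hj) hs'.1 hs'.2.1 hs'.2.2.1 hs'.2.2.2 h with
        h' | h'
      · exact absurd h'.2.2 hj
      · have := hwi (hw_mem hs1 hs) ⟨zero_le_one, le_rfl⟩ (h'.1.trans hw1.symm)
        exact Or.inr (Or.inr (Or.inl ⟨by linarith, h'.2⟩))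
    · subst hj
      rw [gam_zero_of_gt ht1, gam_of_ne hi] at h
      have ht' := htri _ (hw_mem ht1 ht)
      rcases Psi_eq_St hs0 hs.2 (fun h0 => absurd h0 hi) ht'.1 ht'.2.1 ht'.2.2.1 ht'.2.2.2
        h.symm with h' | h'
      · exact absurd h'.2.2 hi
      · have := hwi (hw_mem ht1 ht) ⟨zero_le_one, le_rfl⟩ (h'.1.trans hw1.symm)
        exact Or.inr (Or.inr (Or.inl ⟨h'.2, by linarith⟩))
    · rw [gam_of_ne hi, gam_of_ne hj] at h
      rcases outer_kernel hs0 hs.2 ht1 hi hj h with h' | h'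
      · exact Or.inl h'
      · exact Or.inr (Or.inr (Or.inl h'))

/-- Good parameters give a realization of `H_m` with `m ≥ 1`. -/
theorem realize (hF : StmtF) (hfin : {l | δ l = 0}.Finite) (hne : {l | δ l = 0}.Nonempty)
    (hwc : ContinuousOn w (Icc 0 1)) (hwi : InjOn w (Icc 0 1)) (hw0 : w 0 = (0, 0))
    (hw1 : w 1 = (1, 0))
    (htri : ∀ v ∈ Icc (0 : ℝ) 1, 0 ≤ (w v).1 ∧ 0 ≤ (w v).2 ∧ (w v).1 + (w v).2 ≤ 1 ∧
      ((w v).1 = 0 → (w v).2 = 0)) : ∃ m, 1 ≤ m ∧ Nonempty (Realization m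
      (St δ 0 '' Icc 0 1 ∪ St δ 1 '' Icc 0 2 ∪ St δ 2 '' Icc 0 2 ∪ Psi '' (w '' Icc 0 1))) := by
  obtain ⟨m, ell, hm, hlt, hz, hz'⟩ := exists_enum hfin hne
  refine ⟨m, hm, ?_⟩
  rw [← iUnion_gam hw0]
  have e1 : ∀ k < m, Tn ell m (4 * k + 1) = 1 / ((ell k : ℝ) + 7 / 4) := by
    intro k hk
    rw [Tn_of_lt (by omega), show 4 * k = 4 * k + 0 by rfl, Dn_add _ _ _ (by norm_num)]
    norm_num
  have e2 : ∀ k < m, Tn ell m (4 * k + 2) = 1 / ((ell k : ℝ) + 19 / 12) := by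
    intro k hk
    rw [Tn_of_lt (by omega), Dn_add _ _ _ (by norm_num)]
    congr 1
    push_cast
    ring
  have e3 : ∀ k < m, Tn ell m (4 * k + 3) = 1 / ((ell k : ℝ) + 17 / 12) := by
    intro k hk
    rw [Tn_of_lt (by omega), Dn_add _ _ _ (by norm_num)]
    congr 1
    push_cast
    ring
  have e4 : ∀ k < m, Tn ell m (4 * k + 4) = 1 / ((ell k : ℝ) + 5 / 4) := by
    intro k hk
    rw [Tn_of_lt (by omega), Dn_add _ _ _ (by norm_num)]
    congr 1
    push_cast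
    ring
  have hpos : ∀ k, (0 : ℝ) ≤ ell k := fun k => Nat.cast_nonneg _
  have hs1 : ∀ k, sig (1 / ((ell k : ℝ) + 7 / 4)) = 1 / ((ell k : ℝ) + 17 / 12) := by
    intro k
    unfold sig
    rw [one_div_one_div]
    congr 1
    ring
  have hs2 : ∀ k, sig (1 / ((ell k : ℝ) + 19 / 12)) = 1 / ((ell k : ℝ) + 5 / 4) := by
    intro k
    unfold sig
    rw [one_div_one_div]
    congr 1
    ring
  have hle1 : ∀ k, 1 / ((ell k : ℝ) + 19 / 12) ≤ 1 := by
    intro k
    have := hpos k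
    rw [div_le_iff₀ (by linarith)]
    linarith
  refine hF ℂ m (Tn ell m) sig (gam δ w) (Tn_lt hlt) rfl (Tn_last ell m)
    (continuousOn_gam hwc hw0) (fun i j => by rw [gam_zero, gam_zero])
    (fun i j => by rw [gam_two hw1, gam_two hw1]) ?_ ?_ ?_ ?_ ?_
  · intro k hk
    rw [e1 k hk, e2 k hk]
    exact sig_strictMonoOn (one_div_pos.2 (by linarith [hpos k]))
      ((hle1 k).trans_lt (by norm_num))
  · intro k hk
    rw [e1 k hk, e2 k hk, e3 k hk, e4 k hk]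
    exact ⟨hs1 k, hs2 k⟩
  · intro k hk
    rw [e1 k hk, e2 k hk, e3 k hk, e4 k hk]
    intro u hu
    have hp := hpos k
    have hu0 : 0 < u := lt_of_lt_of_le (one_div_pos.2 (by linarith)) hu.1
    have h1 : 1 / u ≤ ell k + 17 / 12 := by
      have := hu.1
      rw [div_le_iff₀ (by linarith)] at this
      rw [div_le_iff₀ hu0]
      linarith
    have h2 : ell k + 5 / 4 ≤ 1 / u := by
      have := hu.2
      rw [le_div_iff₀ (by linarith)] at this
      rw [le_div_iff₀ hu0]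
      linarith
    refine ⟨1 / (1 / u + 1 / 3), ⟨?_, ?_⟩, ?_⟩
    · exact one_div_le_one_div_of_le (by linarith) (by linarith)
    · exact one_div_le_one_div_of_le (by linarith) (by linarith)
    · unfold sig
      rw [one_div_one_div, add_sub_cancel_right, one_div_one_div]
  · intro k hk t ht i
    rw [e1 k hk, e2 k hk] at ht
    have hp := hpos k
    have ht1 : t ≤ 1 := ht.2.trans (hle1 k)
    have ht0 : 0 < t := lt_of_lt_of_le (one_div_pos.2 (by linarith)) ht.1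
    have hst : sig t ≤ 1 := by
      have h2 : ell k + 19 / 12 ≤ 1 / t := by
        have := ht.2
        rw [le_div_iff₀ (by linarith)] at this
        rw [le_div_iff₀ ht0]
        linarith
      unfold sig
      rw [div_le_iff₀ (by linarith)]
      linarith
    rw [gam_of_le ht1, gam_of_le hst]
    exact St_overlap (hz k hk) ht.1 ht.2 i
  · intro i j s hs t ht h
    rcases gam_kernel hwi hw0 hw1 htri hs ht h with h' | h' | h' | h' | h'
    · exact Or.inl h'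
    · exact Or.inr (Or.inl h')
    · exact Or.inr (Or.inr (Or.inl h'))
    · obtain ⟨l, hl, h1, h2, h3, h4⟩ := h'
      obtain ⟨k, hk, rfl⟩ := hz' l hl
      refine Or.inr (Or.inr (Or.inr (Or.inl ⟨k, hk, h1, ?_, h4⟩)))
      rw [e1 k hk, e2 k hk]
      exact ⟨h2, h3⟩
    · obtain ⟨l, hl, h1, h2, h3, h4⟩ := h'
      obtain ⟨k, hk, rfl⟩ := hz' l hl
      refine Or.inr (Or.inr (Or.inr (Or.inr ⟨k, hk, h1, ?_, h4⟩)))
      rw [e1 k hk, e2 k hk]
      exact ⟨h2, h3⟩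

end Pool.Agent.Helper62.AC
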