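import Pool.Agent.Helper62.AC.Arcs
import Pool.Agent.Helper62.AC.Certs

/-!
# Certificates give arcs, and the covering property of the certificates
-/

open Set Topology TopologicalSpace Filter

namespace Pool.Agent.Helper62.AC

theorem src_lt {m e : ℕ} (he : e < 9 * m + 3) : src m e < 6 * m + 2 := by
  unfold src vP vQ
  split_ifs <;> omega

theorem dst_lt {m e : ℕ} (he : e < 9 * m + 3) : dst m e < 6 * m + 2 := by
  unfold dst vP vQ
  split_ifs <;> omega

theorem Realization.mem_iff {Y : Type*} [TopologicalSpace Y] {m : ℕ} {X : Set Y}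
    (R : Realization m X) (y : Y) : y ∈ X ↔ ∃ e < 9 * m + 3, y ∈ R.arc e := by
  rw [Set.ext_iff.1 R.union y]
  simp only [mem_iUnion, exists_prop, Finset.mem_range]

section run

variable {Y : Type*} [TopologicalSpace Y] [T2Space Y] {m : ℕ} {X : Set Y}

/-- One step of a path. -/
theorem step_arc (R : Realization m X) {v₁ v w f : ℕ} {L vis : List ℕ} (hf : f < 9 * m + 3)
    (hE : ArcBetween (R.arc f) (R.pt v) (R.pt w)) (hvw : ∀ y, y ∈ ({R.pt (src m f), R.pt (dst m f)} :
      Set Y) → y = R.pt v ∨ y = R.pt w) (hwlt : w < 6 * m + 2)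
    (hfw : src m f = w ∨ dst m f = w)
    (hL : ∀ g ∈ L, g < 9 * m + 3 ∧ src m g ∈ vis ∧ dst m g ∈ vis) (hw : w ∉ vis)
    (h0 : L = [] → v = v₁)
    (hA : L ≠ [] → ArcBetween (⋃ g ∈ L, R.arc g) (R.pt v₁) (R.pt v)) :
    ArcBetween (⋃ g ∈ f :: L, R.arc g) (R.pt v₁) (R.pt w) := by
  by_cases hLe : L = []
  · subst hLe
    rw [h0 rfl] at hE
    simpa using hE
  · have hA' := hA hLe
    have : (⋃ g ∈ f :: L, R.arc g) = (⋃ g ∈ L, R.arc g) ∪ R.arc f := by
      ext y
      simp only [List.mem_cons, mem_iUnion, exists_prop, mem_union]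
      constructor
      · rintro ⟨g, rfl | hg, hy⟩
        · exact Or.inr hy
        · exact Or.inl ⟨g, hg, hy⟩
      · rintro (⟨g, hg, hy⟩ | hy)
        · exact ⟨g, Or.inr hg, hy⟩
        · exact ⟨f, Or.inl rfl, hy⟩
    rw [this]
    refine hA'.concat hE ?_
    rintro y ⟨hy, hyf⟩
    simp only [mem_iUnion, exists_prop] at hy
    obtain ⟨g, hg, hyg⟩ := hy
    obtain ⟨hglt, hgs, hgd⟩ := hL g hg
    have hgf : g ≠ f := by
      rintro rfl
      rcases hfw with h | h
      · exact hw (h ▸ hgs)
      · exact hw (h ▸ hgd)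
    obtain ⟨h1, h2⟩ := R.inter g hglt f hf hgf ⟨hyg, hyf⟩
    rcases hvw y h2 with h | h
    · exact h
    · exfalso
      rcases h1 with h1 | h1
      · rw [h1] at h
        exact hw (R.pt_inj _ (src_lt hglt) _ hwlt h ▸ hgs)
      · rw [mem_singleton_iff] at h1
        rw [h1] at h
        exact hw (R.pt_inj _ (dst_lt hglt) _ hwlt h ▸ hgd)

theorem run_spec (R : Realization m X) (v₁ : ℕ) : ∀ (L : List ℕ) (v : ℕ) (vis : List ℕ),
    run m v₁ L = some (v, vis) →
      (∀ g ∈ L, g < 9 * m + 3 ∧ src m g ∈ vis ∧ dst m g ∈ vis) ∧ v ∈ vis ∧ (L = [] → v = v₁) ∧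
      (L ≠ [] → ArcBetween (⋃ g ∈ L, R.arc g) (R.pt v₁) (R.pt v)) := by
  intro L
  induction L with
  | nil =>
    intro v vis h
    simp only [run, Option.some.injEq, Prod.mk.injEq] at h
    obtain ⟨rfl, rfl⟩ := h
    refine ⟨by simp, by simp, fun _ => rfl, fun h => absurd rfl h⟩
  | cons f L ih =>
    intro v' vis' h
    rw [run] at h
    cases hr : run m v₁ L with
    | none => rw [hr] at h; exact absurd h (by simp)
    | some p =>
      obtain ⟨v, vis⟩ := p
      rw [hr] at h
      simp only at h
      obtain ⟨hL, hv, h0, hA⟩ := ih v vis hr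
      split_ifs at h with h1 h2
      · simp only [Option.some.injEq, Prod.mk.injEq] at h
        obtain ⟨rfl, rfl⟩ := h
        simp only [Bool.and_eq_true, Nat.ble_eq, Nat.beq_eq, Bool.not_eq_true',
          List.elem_eq_mem, decide_eq_false_iff_not] at h1
        obtain ⟨⟨hf, hs⟩, hd⟩ := h1
        refine ⟨?_, by simp, fun h => absurd h (by simp), fun _ => ?_⟩
        · intro g hg
          rcases List.mem_cons.1 hg with rfl | hg
          · exact ⟨by omega, List.mem_cons_of_mem _ (hs ▸ hv), List.mem_cons_self⟩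
          · obtain ⟨a, b, c⟩ := hL g hg
            exact ⟨a, List.mem_cons_of_mem _ b, List.mem_cons_of_mem _ c⟩
        · refine step_arc R (by omega) (v := v) ?_ ?_ (dst_lt (by omega)) (Or.inr rfl) hL hd h0 hA
          · rw [← hs]; exact R.isArc f (by omega)
          · intro y hy
            rcases hy with hy | hy
            · left; rw [hy, hs]
            · right; exact hy
      · simp only [Option.some.injEq, Prod.mk.injEq] at h
        obtain ⟨rfl, rfl⟩ := h
        simp only [Bool.and_eq_true, Nat.ble_eq, Nat.beq_eq, Bool.not_eq_true',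
          List.elem_eq_mem, decide_eq_false_iff_not] at h2
        obtain ⟨⟨hf, hs⟩, hd⟩ := h2
        refine ⟨?_, by simp, fun h => absurd h (by simp), fun _ => ?_⟩
        · intro g hg
          rcases List.mem_cons.1 hg with rfl | hg
          · exact ⟨by omega, List.mem_cons_self, List.mem_cons_of_mem _ (hs ▸ hv)⟩
          · obtain ⟨a, b, c⟩ := hL g hg
            exact ⟨a, List.mem_cons_of_mem _ b, List.mem_cons_of_mem _ c⟩
        · refine step_arc R (by omega) (v := v) ?_ ?_ (src_lt (by omega)) (Or.inl rfl) hL hd h0 hA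
          · rw [← hs]; exact (R.isArc f (by omega)).symm
          · intro y hy
            rcases hy with hy | hy
            · right; exact hy
            · left; rw [mem_singleton_iff] at hy; rw [hy, hs]

/-- An edge, oriented so that it starts at a given end. -/
theorem exists_other (R : Realization m X) {f v : ℕ} (hf : f < 9 * m + 3)
    (h : src m f = v ∨ dst m f = v) : ∃ w, ArcBetween (R.arc f) (R.pt v) (R.pt w) ∧
      ({R.pt (src m f), R.pt (dst m f)} : Set Y) = {R.pt v, R.pt w} := by
  rcases h with h | h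
  · exact ⟨dst m f, h ▸ R.isArc f hf, by rw [h]⟩
  · exact ⟨src m f, h ▸ (R.isArc f hf).symm, by rw [h, pair_comm]⟩

theorem cert_arc (R : Realization m X) (c : Cert) (hc : okCert m c = true) (F : Set Y)
    (hF : F.Finite) (hcov : ∀ y ∈ F, ∃ e ∈ c.edges, y ∈ R.arc e) :
    ∃ A ⊆ X, IsArc A ∧ F ⊆ A := by
  obtain ⟨v₁, f0, fk, L⟩ := c
  unfold okCert at hc
  simp only at hc
  cases hr : run m v₁ L with
  | none => rw [hr] at hc; exact absurd hc (by simp)
  | some p =>
    obtain ⟨v, vis⟩ := p
    rw [hr] at hc
    simp only [Bool.and_eq_true, Bool.or_eq_true, Nat.ble_eq,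
      Bool.not_eq_true', List.elem_eq_mem, decide_eq_false_iff_not, List.isEmpty_eq_false_iff,
      Nat.beq_eq] at hc
    obtain ⟨⟨⟨⟨⟨⟨⟨⟨hv1, hf0⟩, hfk⟩, hi0⟩, hik⟩, hn0⟩, hnk⟩, h0k⟩, hLe⟩ := hc
    have h0k' : f0 ≠ fk := by
      intro h
      rw [h] at h0k
      simp at h0k
    obtain ⟨hL, hv, h0, hA⟩ := run_spec R v₁ L v vis hr
    have hA' := hA hLe
    have hAX : (⋃ g ∈ L, R.arc g) ⊆ X := by
      intro y hy
      rw [R.mem_iff]
      simp only [mem_iUnion, exists_prop] at hy
      obtain ⟨g, hg, hyg⟩ := hy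
      exact ⟨g, (hL g hg).1, hyg⟩
    have hEX : ∀ f < 9 * m + 3, R.arc f ⊆ X := by
      intro f hf y hy
      rw [R.mem_iff]
      exact ⟨f, hf, hy⟩
    obtain ⟨w, hw, hwe⟩ := exists_other R (f := fk) (v := v) (by omega) hik
    obtain ⟨w0, hw0, hwe0⟩ := exists_other R (f := f0) (v := v₁) (by omega) hi0
    obtain ⟨A₁, z₁, hA₁, hs₁, hs₁', hF₁⟩ := hA'.extend hw (F := F) (by
      rintro y ⟨hy, hyf⟩
      simp only [mem_iUnion, exists_prop] at hy
      obtain ⟨g, hg, hyg⟩ := hy
      have hgf : g ≠ fk := fun h => hnk (h ▸ hg)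
      rw [← hwe]
      exact (R.inter g (hL g hg).1 fk (by omega) hgf ⟨hyg, hyf⟩).2) hF
    obtain ⟨A₂, z₂, hA₂, hs₂, hs₂', hF₂⟩ := hA₁.symm.extend hw0 (F := F) (by
      rintro y ⟨hy, hyf⟩
      rw [← hwe0]
      rcases hs₁' hy with hy | hy
      · simp only [mem_iUnion, exists_prop] at hy
        obtain ⟨g, hg, hyg⟩ := hy
        have hgf : g ≠ f0 := fun h => hn0 (h ▸ hg)
        exact (R.inter g (hL g hg).1 f0 (by omega) hgf ⟨hyg, hyf⟩).2
      · exact (R.inter fk (by omega) f0 (by omega) h0k'.symm ⟨hy, hyf⟩).2) hF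
    refine ⟨A₂, ?_, hA₂.isArc, ?_⟩
    · refine hs₂'.trans (union_subset (hs₁'.trans (union_subset hAX (hEX _ (by omega))))
        (hEX _ (by omega)))
    · intro y hy
      obtain ⟨e, he, hye⟩ := hcov y hy
      simp only [Cert.edges, List.mem_cons] at he
      rcases he with rfl | rfl | he
      · exact hF₂ ⟨hy, hye⟩
      · exact hs₂ (hF₁ ⟨hy, hye⟩)
      · apply hs₂
        apply hs₁
        simp only [mem_iUnion, exists_prop]
        exact ⟨e, he, hye⟩

end run

/-! ### Soundness of the covering check -/

theorem testBit_maskOf {e : ℕ} : ∀ {L : List ℕ}, (maskOf L).testBit e = true → e ∈ L := by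
  intro L
  induction L with
  | nil => intro h; simp [maskOf] at h
  | cons x L ih =>
    intro h
    rw [maskOf] at h
    change (2 ^ x ||| maskOf L).testBit e = true at h
    rw [Nat.testBit_or, Bool.or_eq_true] at h
    rcases h with h | h
    · rw [Nat.testBit_two_pow] at h
      simp only [decide_eq_true_eq] at h
      exact h ▸ List.mem_cons_self
    · exact List.mem_cons_of_mem _ (ih h)

theorem testBit_orAll {e : ℕ} : ∀ {L : List ℕ}, (orAll L).testBit e = true →
    ∃ x ∈ L, x.testBit e = true := by
  intro L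
  induction L with
  | nil => intro h; simp [orAll] at h
  | cons x L ih =>
    intro h
    rw [orAll] at h
    change (x ||| orAll L).testBit e = true at h
    rw [Nat.testBit_or, Bool.or_eq_true] at h
    rcases h with h | h
    · exact ⟨x, List.mem_cons_self, h⟩
    · obtain ⟨y, hy, hy'⟩ := ih h
      exact ⟨y, List.mem_cons_of_mem _ hy, hy'⟩

theorem orAll_ne_nil {n : ℕ} {masks : List ℕ} (h : Nat.beq (orAll masks) n = true) (hn : n ≠ 0) :
    ∃ x, x ∈ masks := by
  cases masks with
  | nil =>
    exact absurd (Nat.eq_of_beq_eq_true h).symm hn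
  | cons x _ => exact ⟨x, List.mem_cons_self⟩

theorem exists_mem_of_not_isEmpty {masks : List ℕ} (h : (!masks.isEmpty) = true) :
    ∃ x, x ∈ masks := by
  cases masks with
  | nil => simp at h
  | cons x _ => exact ⟨x, List.mem_cons_self⟩

theorem allCover_sound {N : ℕ} (hN : 0 < N) : ∀ (es : List ℕ) (r : ℕ) (masks : List ℕ),
    allCover (2 ^ N - 1) es r masks = true → (∀ e ∈ es, e < N) →
    ∀ S : Finset ℕ, S.card ≤ r → (∀ e ∈ S, e ∈ es) →
      ∃ x ∈ masks, ∀ e ∈ S, x.testBit e = true := by
  intro es
  induction es with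
  | nil =>
    intro r masks h _ S hS hSe
    have hS0 : S = ∅ := Finset.eq_empty_of_forall_notMem fun e he => by simpa using hSe e he
    subst hS0
    have : ∃ x, x ∈ masks := by
      rcases r with _ | _ | r
      · exact exists_mem_of_not_isEmpty h
      · exact exists_mem_of_not_isEmpty h
      · exact exists_mem_of_not_isEmpty h
    obtain ⟨x, hx⟩ := this
    exact ⟨x, hx, by simp⟩
  | cons a es ih =>
    intro r masks h hlt S hS hSe
    rcases r with _ | _ | r
    · have hS0 : S = ∅ := Finset.card_eq_zero.1 (by omega)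
      subst hS0
      obtain ⟨x, hx⟩ := exists_mem_of_not_isEmpty h
      exact ⟨x, hx, by simp⟩
    · rw [allCover] at h
      rcases Finset.eq_empty_or_nonempty S with rfl | ⟨e, he⟩
      · obtain ⟨x, hx⟩ := orAll_ne_nil h (by
          have : 2 ^ 1 ≤ 2 ^ N := Nat.pow_le_pow_right (by norm_num) hN
          omega)
        exact ⟨x, hx, by simp⟩
      · have hSe' : S = {e} := by
          symm
          apply Finset.eq_of_subset_of_card_le (by simpa using he)
          simpa using hS
        subst hSe'
        replace h := Nat.eq_of_beq_eq_true h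
        have hb : (orAll masks).testBit e = true := by
          rw [h, Nat.testBit_two_pow_sub_one]
          simpa using hlt e (hSe e he)
        obtain ⟨x, hx, hx'⟩ := testBit_orAll hb
        exact ⟨x, hx, by simpa using hx'⟩
    · rw [allCover, Bool.and_eq_true] at h
      by_cases ha : a ∈ S
      · obtain ⟨x, hx, hx'⟩ := ih (r + 1) _ h.2 (fun e he => hlt e (List.mem_cons_of_mem _ he))
          (S.erase a) (by rw [Finset.card_erase_of_mem ha]; omega) (by
            intro e he
            rw [Finset.mem_erase] at he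
            rcases List.mem_cons.1 (hSe e he.2) with h' | h'
            · exact absurd h' he.1
            · exact h')
        rw [List.mem_filter] at hx
        refine ⟨x, hx.1, fun e he => ?_⟩
        by_cases hea : e = a
        · rw [hea]; exact hx.2
        · exact hx' e (Finset.mem_erase.2 ⟨hea, he⟩)
      · exact ih (r + 2) _ h.1 (fun e he => hlt e (List.mem_cons_of_mem _ he)) S hS (by
            intro e he
            rcases List.mem_cons.1 (hSe e he) with h' | h'
            · exact absurd (h' ▸ he) ha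
            · exact h')

theorem rungCover_sound {N : ℕ} (hN : 0 < N) (es : List ℕ) (hes : ∀ e ∈ es, e < N) :
    ∀ (a r : ℕ) (masks : List ℕ), rungCover (2 ^ N - 1) es a r masks = true →
    ∀ S : Finset ℕ, S.card ≤ r → (∀ e ∈ S, e ∈ es) →
      (∀ b < a, ∃ c < 3, 9 * b + 6 + c ∈ S) → ∃ x ∈ masks, ∀ e ∈ S, x.testBit e = true := by
  intro a
  induction a with
  | zero =>
    intro r masks h S hS hSe _
    exact allCover_sound hN es r masks (by simpa [rungCover] using h) hes S hS hSe
  | succ a ih =>
    intro r masks h S hS hSe hb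
    obtain ⟨c, hc, hcS⟩ := hb a (by omega)
    rcases r with _ | r
    · have hS0 : S = ∅ := Finset.card_eq_zero.1 (by omega)
      rw [hS0] at hcS
      simp at hcS
    · rw [rungCover, Bool.and_eq_true, Bool.and_eq_true] at h
      have key : rungCover (2 ^ N - 1) es a r
          (masks.filter fun x => x.testBit (9 * a + 6 + c)) = true := by
        interval_cases c
        · exact h.1.1
        · exact h.1.2
        · exact h.2
      obtain ⟨x, hx, hx'⟩ := ih r _ key (S.erase (9 * a + 6 + c))
        (by rw [Finset.card_erase_of_mem hcS]; omega)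
        (fun e he => hSe e (Finset.mem_of_mem_erase he)) (by
          intro b hba
          obtain ⟨c', hc', hcS'⟩ := hb b (by omega)
          exact ⟨c', hc', Finset.mem_erase.2 ⟨by omega, hcS'⟩⟩)
      rw [List.mem_filter] at hx
      refine ⟨x, hx.1, fun e he => ?_⟩
      by_cases hea : e = 9 * a + 6 + c
      · rw [hea]; exact hx.2
      · exact hx' e (Finset.mem_erase.2 ⟨hea, he⟩)

theorem mem_edgesBelow {e : ℕ} : ∀ {n : ℕ}, e ∈ edgesBelow n ↔ e < n := by
  intro n
  induction n with
  | zero => simp [edgesBelow]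
  | succ n ih =>
    rw [edgesBelow, List.mem_cons, ih]
    omega

/-- The combinatorial covering property: for `m ≤ 6` every set of at most 6 edges of `H_m`
which contains a rung of each level is contained in a certificate. -/
theorem exists_cert {m : ℕ} (hm : m ≤ 6) (S : Finset ℕ) (hS : S.card ≤ 6)
    (hlt : ∀ e ∈ S, e < 9 * m + 3) (hrung : ∀ b < m, ∃ c < 3, 9 * b + 6 + c ∈ S) :
    ∃ c : Cert, okCert m c = true ∧ ∀ e ∈ S, e ∈ c.edges := by
  have main : ∀ certs : List Cert, (certs.all fun c => okCert m c) = true →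
      rungCover (2 ^ (9 * m + 3) - 1) (edgesBelow (9 * m + 3)) m 6
        (certs.map fun c => maskOf c.edges) = true →
      ∃ c : Cert, okCert m c = true ∧ ∀ e ∈ S, e ∈ c.edges := by
    intro certs h1 h2
    obtain ⟨x, hx, hx'⟩ := rungCover_sound (N := 9 * m + 3) (by omega) _
      (fun e he => mem_edgesBelow.1 he) m 6 _ h2 S hS
      (fun e he => mem_edgesBelow.2 (hlt e he)) hrung
    rw [List.mem_map] at hx
    obtain ⟨c, hc, rfl⟩ := hx
    rw [List.all_eq_true] at h1
    exact ⟨c, h1 c hc, fun e he => testBit_maskOf (hx' e he)⟩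
  interval_cases m
  · exact main certs0 certs0_ok certs0_cover
  · exact main certs1 certs1_ok certs1_cover
  · exact main certs2 certs2_ok certs2_cover
  · exact main certs3 certs3_ok certs3_cover
  · exact main certs4 certs4_ok certs4_cover
  · exact main certs5 certs5_ok certs5_cover
  · exact main certs6 certs6_ok certs6_cover

/-- `H_m` is 6-arc connected. -/
theorem Realization.sixArc (hD1 : StmtD1) {Y : Type} [TopologicalSpace Y] [T2Space Y] :
    ∀ (m : ℕ) (X : Set Y), Realization m X → NArcConn 6 X := by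
  intro m
  induction m with
  | zero =>
    intro X R x hx
    have h1 : ∀ i, ∃ e < 9 * 0 + 3, x i ∈ R.arc e := by
      intro i
      exact (R.mem_iff _).1 (hx i)
    choose e he hxe using h1
    obtain ⟨c, hc, hce⟩ := exists_cert (m := 0) (by omega) (Finset.univ.image e)
      (Finset.card_image_le.trans (by simp))
      (by intro f hf; simp only [Finset.mem_image, Finset.mem_univ, true_and] at hf
          obtain ⟨i, rfl⟩ := hf; exact he i)
      (by intro b hb; omega)
    obtain ⟨A, hAX, hA, hFA⟩ := cert_arc R c hc (range x) (finite_range x) (by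
      rintro y ⟨i, rfl⟩
      exact ⟨e i, hce _ (Finset.mem_image_of_mem _ (Finset.mem_univ i)), hxe i⟩)
    exact ⟨A, hAX, hA, fun i => hFA (mem_range_self i)⟩
  | succ m ih =>
    intro X R x hx
    have h1 : ∀ i, ∃ e < 9 * (m + 1) + 3, x i ∈ R.arc e := by
      intro i
      exact (R.mem_iff _).1 (hx i)
    choose e he hxe using h1
    by_cases hlev : ∀ a < m + 1, ∃ c < 3, 9 * a + 6 + c ∈ Finset.univ.image e
    · have hm : m + 1 ≤ 6 := by
        -- the rungs of different levels are different marks
        choose! c hc hce using hlev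
        have hinj : Set.InjOn (fun a => 9 * a + 6 + c a) (Finset.range (m + 1) : Set ℕ) := by
          intro a ha b hb hab
          simp only [Finset.coe_range, mem_Iio] at ha hb
          have := hc a ha
          have := hc b hb
          simp only at hab
          omega
        have := Finset.card_le_card_of_injOn (s := Finset.range (m + 1))
          (t := Finset.univ.image e) (fun a => 9 * a + 6 + c a)
          (fun a ha => hce a (by simpa using ha)) hinj
        rw [Finset.card_range] at this
        exact this.trans (Finset.card_image_le.trans (by simp))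
      obtain ⟨c, hc, hce⟩ := exists_cert hm (Finset.univ.image e)
        (Finset.card_image_le.trans (by simp))
        (by intro f hf; simp only [Finset.mem_image, Finset.mem_univ, true_and] at hf
            obtain ⟨i, rfl⟩ := hf; exact he i) hlev
      obtain ⟨A, hAX, hA, hFA⟩ := cert_arc R c hc (range x) (finite_range x) (by
        rintro y ⟨i, rfl⟩
        exact ⟨e i, hce _ (Finset.mem_image_of_mem _ (Finset.mem_univ i)), hxe i⟩)
      exact ⟨A, hAX, hA, fun i => hFA (mem_range_self i)⟩
    · push Not at hlev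
      obtain ⟨a, ha, hac⟩ := hlev
      obtain ⟨X', hX', ⟨R'⟩, harc⟩ := hD1 Y m a X (by omega) R
      obtain ⟨A, hA, hA', hA''⟩ := ih X' R' x (by
        intro i
        refine harc (e i) (he i) ?_ (hxe i)
        intro c hc h
        exact hac c hc (h ▸ Finset.mem_image_of_mem _ (Finset.mem_univ i)))
      exact ⟨A, hA.trans hX', hA', hA''⟩

end Pool.Agent.Helper62.AC
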