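import Pool.Agent.Helper62.AC.Bad
import Pool.Agent.Helper62.AC.Trail

/-!
# The reduction: `AC_6` is `D₂(Σ₃)`-hard
-/

open Set Topology TopologicalSpace Filter

namespace Pool.Agent.Helper62.AC

/-- The parameter space. -/
abbrev Par : Type := (ℕ → unitInterval) × (ℕ → ℕ → Bool)

/-- A strand up to the parameter `c` as a compact set. -/
noncomputable def strandK (i : ZMod 3) (c : ℝ) (δ : ℕ → unitInterval) : NonemptyCompacts ℂ :=
  (⊤ : NonemptyCompacts unitInterval).map (fun u : unitInterval => St δ i (c * u))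
    ((continuous_St' δ i).comp (by fun_prop))

theorem coe_strandK (i : ZMod 3) {c : ℝ} (hc : 0 < c) (δ : ℕ → unitInterval) :
    (strandK i c δ : Set ℂ) = St δ i '' Icc 0 c := by
  unfold strandK
  rw [NonemptyCompacts.coe_map, NonemptyCompacts.coe_top]
  ext y
  constructor
  · rintro ⟨u, _, rfl⟩
    refine ⟨c * u, ⟨mul_nonneg hc.le u.2.1, ?_⟩, rfl⟩
    have := u.2.2
    nlinarith
  · rintro ⟨s, hs, rfl⟩
    refine ⟨⟨s / c, div_nonneg hs.1 hc.le, (div_le_one hc).2 hs.2⟩, mem_univ _, ?_⟩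
    simp only
    congr 1
    field_simp

theorem continuous_strandK (i : ZMod 3) (c : ℝ) : Continuous (strandK i c) := by
  unfold strandK
  refine Continuous.nonemptyCompacts_map' (f := fun _ : ℕ → unitInterval =>
    (⊤ : NonemptyCompacts unitInterval)) (g := fun δ (u : unitInterval) => St δ i (c * u))
    continuous_const ?_
  have : Continuous fun q : (ℕ → unitInterval) × unitInterval =>
      ((q.1, c * (q.2 : ℝ)) : (ℕ → unitInterval) × ℝ) := by fun_prop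
  exact (continuous_St i).comp this

/-- The family of continua. -/
noncomputable def KK (W : (ℕ → ℕ → Bool) → NonemptyCompacts (ℝ × ℝ)) (p : Par) :
    NonemptyCompacts ℂ :=
  strandK 0 1 p.1 ⊔ strandK 1 2 p.1 ⊔ strandK 2 2 p.1 ⊔ (W p.2).map Psi continuous_Psi

theorem coe_KK (W : (ℕ → ℕ → Bool) → NonemptyCompacts (ℝ × ℝ)) (p : Par) :
    (KK W p : Set ℂ) = St p.1 0 '' Icc 0 1 ∪ St p.1 1 '' Icc 0 2 ∪ St p.1 2 '' Icc 0 2 ∪
      Psi '' (W p.2 : Set (ℝ × ℝ)) := by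
  unfold KK
  rw [NonemptyCompacts.coe_sup, NonemptyCompacts.coe_sup, NonemptyCompacts.coe_sup,
    coe_strandK 0 one_pos, coe_strandK 1 two_pos, coe_strandK 2 two_pos,
    NonemptyCompacts.coe_map]

theorem continuous_KK {W : (ℕ → ℕ → Bool) → NonemptyCompacts (ℝ × ℝ)} (hW : Continuous W) :
    Continuous (KK W) := by
  unfold KK
  refine (((((continuous_strandK 0 1).comp continuous_fst).sup
    ((continuous_strandK 1 2).comp continuous_fst)).sup
    ((continuous_strandK 2 2).comp continuous_fst)).sup ?_)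
  exact (continuous_Psi.nonemptyCompacts_map).comp (hW.comp continuous_snd)

theorem KK_subset {W : (ℕ → ℕ → Bool) → NonemptyCompacts (ℝ × ℝ)}
    (hW : ∀ b, ∀ q ∈ (W b : Set (ℝ × ℝ)),
      0 ≤ q.1 ∧ 0 ≤ q.2 ∧ q.1 + q.2 ≤ 1 ∧ (q.1 = 0 → q.2 = 0)) (p : Par) {z : ℂ}
    (hz : z ∈ (KK W p : Set ℂ)) : ‖z‖ ≤ 2 := by
  have hSt : ∀ (i : ZMod 3) (s : ℝ), s ∈ Icc (0 : ℝ) 2 → ‖St p.1 i s‖ ≤ 2 := by
    intro i s hs
    rcases eq_or_lt_of_le hs.1 with h0 | h0
    · rw [← h0, St_zero, norm_zero]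
      norm_num
    · rw [norm_St h0]
      rcases le_total s 1 with h1 | h1
      · exact (rr_le_one h1).trans (by norm_num)
      · rw [rr_of_ge h1]
        exact hs.2
  rw [coe_KK] at hz
  rcases hz with ((⟨s, hs, rfl⟩ | ⟨s, hs, rfl⟩) | ⟨s, hs, rfl⟩) | ⟨q, hq, rfl⟩
  · exact hSt 0 s ⟨hs.1, hs.2.trans one_le_two⟩
  · exact hSt 1 s hs
  · exact hSt 2 s hs
  · have := hW p.2 q hq
    rw [norm_Psi this.1]
    linarith

/-- Connectedness for good gadgets. -/
theorem isConnected_KK_good {W : (ℕ → ℕ → Bool) → NonemptyCompacts (ℝ × ℝ)} (p : Par)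
    (hw : ∃ w : ℝ → ℝ × ℝ, ContinuousOn w (Icc 0 1) ∧
      InjOn w (Icc 0 1) ∧ w '' Icc 0 1 = (W p.2 : Set (ℝ × ℝ)) ∧ w 0 = (0, 0) ∧ w 1 = (1, 0)) :
    IsConnected (KK W p : Set ℂ) := by
  obtain ⟨w, hwc, -, hwim, hw0, -⟩ := hw
  rw [coe_KK, ← hwim]
  have hS : ∀ (i : ZMod 3) (c : ℝ), 0 ≤ c → IsConnected (St p.1 i '' Icc 0 c) := fun i c hc =>
    (isConnected_Icc hc).image _ (continuous_St' p.1 i).continuousOn
  have h0 : ∀ (i : ZMod 3) (c : ℝ), 0 ≤ c → (0 : ℂ) ∈ St p.1 i '' Icc 0 c := fun i c hc =>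
    ⟨0, ⟨le_rfl, hc⟩, St_zero _ _⟩
  have hP : IsConnected (Psi '' (w '' Icc 0 1)) :=
    ((isConnected_Icc zero_le_one).image _ hwc).image _ continuous_Psi.continuousOn
  have h1 : St p.1 0 1 ∈ Psi '' (w '' Icc 0 1) :=
    ⟨(0, 0), ⟨0, ⟨le_rfl, zero_le_one⟩, hw0⟩, (St_zero_one p.1).symm⟩
  refine IsConnected.union ⟨St p.1 0 1, Or.inl (Or.inl ⟨1, ⟨zero_le_one, le_rfl⟩, rfl⟩), h1⟩
    ?_ hP
  refine IsConnected.union ⟨0, Or.inl (h0 0 1 zero_le_one), h0 2 2 (by norm_num)⟩ ?_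
    (hS 2 2 (by norm_num))
  exact IsConnected.union ⟨0, h0 0 1 zero_le_one, h0 1 2 (by norm_num)⟩ (hS 0 1 zero_le_one)
    (hS 1 2 (by norm_num))

/-- Connectedness for all parameters. -/
theorem isConnected_KK (hG2 : StmtG2) {W : (ℕ → ℕ → Bool) → NonemptyCompacts (ℝ × ℝ)}
    (hWc : Continuous W)
    (hw : ∀ b : ℕ → ℕ → Bool, (∀ i, {n | b i n = true}.Finite) →
      ∃ w : ℝ → ℝ × ℝ, ContinuousOn w (Icc 0 1) ∧
      InjOn w (Icc 0 1) ∧ w '' Icc 0 1 = (W b : Set (ℝ × ℝ)) ∧ w 0 = (0, 0) ∧ w 1 = (1, 0))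
    (p : Par) : IsConnected (KK W p : Set ℂ) := by
  obtain ⟨δ, b⟩ := p
  have hlim : Tendsto (fun N : ℕ => ((δ, fun i n => b i n && decide (n < N)) : Par)) atTop
      (𝓝 (δ, b)) := by
    refine tendsto_const_nhds.prodMk_nhds ?_
    rw [tendsto_pi_nhds]
    intro i
    rw [tendsto_pi_nhds]
    intro n
    refine tendsto_const_nhds.congr' ?_
    filter_upwards [eventually_gt_atTop n] with N hN
    simp [hN]
  have hK : Tendsto (fun N : ℕ => KK W (δ, fun i n => b i n && decide (n < N))) atTop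
      (𝓝 (KK W (δ, b))) := ((continuous_KK hWc).tendsto _).comp hlim
  refine (hG2 ℂ).mem_of_tendsto hK (Eventually.of_forall fun N => ?_)
  refine isConnected_KK_good _ (hw _ fun i => ?_)
  refine (Set.finite_lt_nat N).subset fun n hn => ?_
  simp only [mem_ofPred_eq, Bool.and_eq_true, decide_eq_true_eq] at hn
  exact hn.2

/-- The embedding of the disc of radius 2 in the cube. -/
noncomputable def emb (N : ℕ) (z : ℂ) : Cube N := fun j =>
  if j.val = 0 then projIcc 0 1 zero_le_one ((z.re + 2) / 4)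
  else if j.val = 1 then projIcc 0 1 zero_le_one ((z.im + 2) / 4) else 0

theorem continuous_emb (N : ℕ) : Continuous (emb N) := by
  refine continuous_pi fun j => ?_
  unfold emb
  split_ifs
  · exact continuous_projIcc.comp (by fun_prop)
  · exact continuous_projIcc.comp (by fun_prop)
  · exact continuous_const

theorem injOn_emb {N : ℕ} (hN : 2 ≤ N) : InjOn (emb N) {z | ‖z‖ ≤ 2} := by
  intro z hz z' hz' h
  have key : ∀ x y : ℝ, |x| ≤ 2 → |y| ≤ 2 → projIcc (0 : ℝ) 1 zero_le_one ((x + 2) / 4) =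
      projIcc 0 1 zero_le_one ((y + 2) / 4) → x = y := by
    intro x y hx hy hxy
    rw [abs_le] at hx hy
    have hx' : (x + 2) / 4 ∈ Icc (0 : ℝ) 1 := ⟨by linarith, by linarith⟩
    have hy' : (y + 2) / 4 ∈ Icc (0 : ℝ) 1 := ⟨by linarith, by linarith⟩
    rw [projIcc_of_mem _ hx', projIcc_of_mem _ hy'] at hxy
    have := congrArg Subtype.val hxy
    simp only at this
    linarith
  have h0 := congrFun h ⟨0, by omega⟩
  have h1 := congrFun h ⟨1, by omega⟩
  simp only [emb, if_pos, one_ne_zero, if_false] at h0 h1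
  refine Complex.ext ?_ ?_
  · exact key _ _ ((Complex.abs_re_le_norm z).trans hz) ((Complex.abs_re_le_norm z').trans hz') h0
  · exact key _ _ ((Complex.abs_im_le_norm z).trans hz) ((Complex.abs_im_le_norm z').trans hz') h1

/-- A realization of `H_m` is a graph. -/
theorem Realization.isGraph (hD1 : StmtD1) {X : Set ℂ} {m : ℕ} (R : Realization m X) :
    IsGraph X := by
  have h6 := Realization.sixArc hD1 m X R
  constructor
  · -- connected since any two points lie on an arc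
    have h0 : R.pt (src m 0) ∈ X :=
      (R.mem_iff _).2 ⟨0, by omega, (R.isArc 0 (by omega)).left_mem⟩
    refine ⟨⟨_, h0⟩, ?_⟩
    apply isPreconnected_of_forall_pair
    intro x hx y hy
    obtain ⟨A, hAX, hA, hmem⟩ := h6 (fun i => if i = 0 then x else y) (by
      intro i
      split_ifs
      · exact hx
      · exact hy)
    obtain ⟨a, b, hab⟩ := hA.exists_between
    refine ⟨A, hAX, ?_, ?_, hab.isConnected.isPreconnected⟩
    · simpa using hmem 0
    · simpa using hmem 1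
  · refine ⟨9 * m + 3, fun i => R.arc i, fun i => R.pt (src m i), fun i => R.pt (dst m i),
      fun i => R.isArc i i.2, ?_, ?_⟩
    · ext y
      rw [R.mem_iff]
      simp only [mem_iUnion]
      constructor
      · rintro ⟨e, he, hy⟩
        exact ⟨⟨e, he⟩, hy⟩
      · rintro ⟨i, hy⟩
        exact ⟨i, i.2, hy⟩
    · intro i j hij
      exact R.inter i i.2 j j.2 (fun h => hij (Fin.ext h))

/-- The geometric theorem: the family `KK` and its properties. -/
theorem KK_mem_iff (hD1 : StmtD1) (hE : StmtE) (hF : StmtF) (hI1 : StmtI1) (hI2 : StmtI2)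
    {W : (ℕ → ℕ → Bool) → NonemptyCompacts (ℝ × ℝ)}
    (hW : ∀ b, ∀ q ∈ (W b : Set (ℝ × ℝ)),
      0 ≤ q.1 ∧ 0 ≤ q.2 ∧ q.1 + q.2 ≤ 1 ∧ (q.1 = 0 → q.2 = 0))
    (hw : ∀ b : ℕ → ℕ → Bool, (∀ i, {n | b i n = true}.Finite) →
      ∃ w : ℝ → ℝ × ℝ, ContinuousOn w (Icc 0 1) ∧
      InjOn w (Icc 0 1) ∧ w '' Icc 0 1 = (W b : Set (ℝ × ℝ)) ∧ w 0 = (0, 0) ∧ w 1 = (1, 0))
    (hcomb : ∀ b, (¬ ∀ i, {n | b i n = true}.Finite) → ∃ (v : ℝ × ℝ) (l : ℕ → ℝ) (t : ℝ),
      v ∈ (W b : Set (ℝ × ℝ)) ∧ 0 < v.1 ∧ v.1 < 1 ∧ v.2 < t ∧ t ≤ 1 ∧ (∀ n, 0 < l n) ∧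
      (∀ n, l n < v.1) ∧ Tendsto l atTop (𝓝 v.1) ∧
      (∀ n, ∀ q ∈ (W b : Set (ℝ × ℝ)), q.1 = l n → q.2 = t) ∧
      ∀ ε > 0, ∃ q ∈ (W b : Set (ℝ × ℝ)), q.1 < v.1 ∧ dist q v < ε)
    (p : Par) (hne : {l | p.1 l = 0}.Nonempty) :
    (IsGraph (KK W p : Set ℂ) ∧ NArcConn 6 (KK W p : Set ℂ) ∧ ¬ NArcConn 7 (KK W p : Set ℂ)) ↔
      (∀ i, {n | p.2 i n = true}.Finite) ∧ {l | p.1 l = 0}.Finite := by
  constructor
  · rintro ⟨hG, -, -⟩
    have hfin : {l | p.1 l = 0}.Finite := by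
      by_contra hinf
      refine not_isGraph_of_infinite (δ := p.1) hI1 ?_ ?_ hinf hG
      · rw [coe_KK]
        exact fun z hz => Or.inl (Or.inl (Or.inl hz))
      · rw [coe_KK]
        exact fun z hz => Or.inl (Or.inl (Or.inr
          (image_mono (Icc_subset_Icc_right one_le_two) hz)))
    refine ⟨?_, hfin⟩
    by_contra hbad
    obtain ⟨v, l, t, hv, hv0, hv1, hvt, ht1, hl0, hlv, hlim, hlev, hcl⟩ := hcomb p.2 hbad
    exact not_isGraph_of_comb hI2 (coe_KK W p) (hW p.2) hv hv0 hv1 hvt ht1 hl0 hlv hlim hlev hcl hG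
  · rintro ⟨hrow, hfin⟩
    obtain ⟨w, hwc, hwi, hwim, hw0, hw1⟩ := hw p.2 hrow
    have htri : ∀ v ∈ Icc (0 : ℝ) 1, 0 ≤ (w v).1 ∧ 0 ≤ (w v).2 ∧ (w v).1 + (w v).2 ≤ 1 ∧
        ((w v).1 = 0 → (w v).2 = 0) := fun v hv => hW p.2 _ (hwim ▸ mem_image_of_mem w hv)
    obtain ⟨m, hm, ⟨R⟩⟩ := realize hF hfin hne hwc hwi hw0 hw1 htri
    rw [hwim, ← coe_KK] at R
    exact ⟨R.isGraph hD1, Realization.sixArc hD1 m _ R, hE ℂ m _ hm R⟩

/-- `AC_6` is `D₂(Σ₃)`-hard. -/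
theorem hard (hA : StmtA) (hD1 : StmtD1) (hE : StmtE) (hF : StmtF) (hG2 : StmtG2)
    (hI1 : StmtI1) (hI2 : StmtI2) (hJ : StmtJ) (hWs : StmtW) {N : ℕ} (hN : 2 ≤ N) :
    D2Sigma3Hard (ACset N 6) := by
  intro Z _ _ hZ B hB
  obtain ⟨δ, h, hδc, hhc, hδ, hδ0, hmem⟩ := hA Z hZ B hB
  obtain ⟨W, hWc, hW, hw, hcomb⟩ := hWs
  -- parameters in the unit interval
  set δ' : Z → ℕ → unitInterval := fun z n => ⟨δ z n, hδ z n⟩ with hδ'
  have hδ'c : Continuous δ' := by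
    refine continuous_pi fun n => ?_
    exact Continuous.subtype_mk ((continuous_apply n).comp hδc) _
  have hzero : ∀ z n, δ' z n = 0 ↔ δ z n = 0 := by
    intro z n
    rw [hδ']
    simp only [← Subtype.coe_inj, Set.Icc.coe_zero]
  set p : Z → Par := fun z => (δ' z, h z) with hp
  have hpc : Continuous p := hδ'c.prodMk hhc
  have hconn : ∀ z, IsConnected (KK W (p z) : Set ℂ) := fun z => isConnected_KK hG2 hWc hw (p z)
  have hconn' : ∀ z, IsConnected (((KK W (p z)).map (emb N) (continuous_emb N) :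
      NonemptyCompacts (Cube N)) : Set (Cube N)) := by
    intro z
    rw [NonemptyCompacts.coe_map]
    exact (hconn z).image _ (continuous_emb N).continuousOn
  refine ⟨fun z => ⟨(KK W (p z)).map (emb N) (continuous_emb N), hconn' z⟩, ?_, ?_⟩
  · refine Continuous.subtype_mk ?_ _
    exact ((continuous_emb N).nonemptyCompacts_map).comp ((continuous_KK hWc).comp hpc)
  · ext z
    rw [hmem z, mem_preimage]
    have hinj : InjOn (emb N) (KK W (p z) : Set ℂ) :=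
      (injOn_emb hN).mono fun y hy => KK_subset hW (p z) hy
    obtain ⟨hJ1, hJ2⟩ := hJ ℂ (Cube N) (emb N) (KK W (p z) : Set ℂ) (KK W (p z)).isCompact
      (continuous_emb N).continuousOn hinj
    have hne : {l | (p z).1 l = 0}.Nonempty := ⟨0, (hzero z 0).2 (hδ0 z)⟩
    have key := KK_mem_iff hD1 hE hF hI1 hI2 hW hw hcomb (p z) hne
    have hz : {l | (p z).1 l = 0} = {n | δ z n = 0} := by
      ext n
      exact hzero z n
    rw [hz] at key
    have h2 : (p z).2 = h z := rfl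
    rw [h2] at key
    rw [← key]
    unfold ACset
    simp only [mem_ofPred_eq, NonemptyCompacts.coe_map]
    rw [hJ1, hJ2, hJ2]

/-- Preimages of `Π₃` sets under continuous maps. -/
theorem IsPi3.preimage {X Z : Type*} [TopologicalSpace X] [TopologicalSpace Z] {A : Set X}
    (hA : IsPi3 A) {f : Z → X} (hf : Continuous f) : IsPi3 (f ⁻¹' A) := by
  obtain ⟨F, hF, rfl⟩ := hA
  refine ⟨fun i j => f ⁻¹' F i j, fun i j => (hF i j).preimage hf, ?_⟩
  simp only [preimage_iInter, preimage_iUnion]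

theorem isPi3_univ {Z : Type*} [TopologicalSpace Z] : IsPi3 (univ : Set Z) :=
  ⟨fun _ _ => univ, fun _ _ => isClosed_univ, by
    ext z
    simp only [mem_univ, mem_iInter, mem_iUnion, exists_const, implies_true]⟩

/-- A `D₂(Σ₃)`-hard set is not `Π₃`. -/
theorem not_isPi3_of_hard (hB : StmtB) {X : Type*} [TopologicalSpace X] {A : Set X}
    (hA : D2Sigma3Hard A) : ¬ IsPi3 A := by
  obtain ⟨Z, i1, i2, hZ, B, hB1, hB2⟩ := hB
  intro h
  obtain ⟨f, hf, hfB⟩ := hA Z hZ B ⟨univ, B, isPi3_univ, hB1, (univ_inter B).symm⟩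
  exact hB2 (hfB ▸ h.preimage hf)

end Pool.Agent.Helper62.AC
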