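import Pool.Agent.Helper62.AC.Defs

/-!
# The radius function of the sliding strands
-/

open Set Topology TopologicalSpace Filter

namespace Pool.Agent.Helper62.AC

/-- Clamp to `[0,1]`. -/
noncomputable def cl (x : ℝ) : ℝ := max 0 (min 1 x)

theorem cl_nonneg (x : ℝ) : 0 ≤ cl x := le_max_left _ _

theorem cl_le_one (x : ℝ) : cl x ≤ 1 := max_le zero_le_one (min_le_left _ _)

theorem cl_mono {x y : ℝ} (h : x ≤ y) : cl x ≤ cl y :=
  max_le_max le_rfl (min_le_min le_rfl h)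

theorem cl_of_nonpos {x : ℝ} (h : x ≤ 0) : cl x = 0 := by
  unfold cl
  exact max_eq_left ((min_le_right _ _).trans h)

theorem cl_of_one_le {x : ℝ} (h : 1 ≤ x) : cl x = 1 := by
  unfold cl
  rw [min_eq_left h]
  norm_num

theorem cl_of_mem {x : ℝ} (h0 : 0 ≤ x) (h1 : x ≤ 1) : cl x = x := by
  unfold cl
  rw [min_eq_right h1, max_eq_right h0]

theorem cl_lt {x y : ℝ} (h : x < y) (h0 : 0 < y) (h1 : y ≤ 1) : cl x < cl y := by
  rw [cl_of_mem h0.le h1]
  rcases le_total x 0 with hx | hx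
  · rw [cl_of_nonpos hx]; exact h0
  · rw [cl_of_mem hx (h.le.trans h1)]; exact h

/-- The profile: a mixture of a function which is flat on `[1/4, 3/4]` and the identity. -/
noncomputable def wf (d x : ℝ) : ℝ :=
  (1 - d) * (min (2 * x) (1 / 2) + max (2 * x - 3 / 2) 0) + d * x

theorem wf_mono {d x y : ℝ} (hd0 : 0 ≤ d) (hd1 : d ≤ 1) (h : x ≤ y) : wf d x ≤ wf d y := by
  unfold wf
  have h1 : min (2 * x) (1 / 2) ≤ min (2 * y) (1 / 2) := min_le_min (by linarith) le_rfl
  have h2 : max (2 * x - 3 / 2) 0 ≤ max (2 * y - 3 / 2) 0 := max_le_max (by linarith) le_rfl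
  have h3 : (1 - d) * (min (2 * x) (1 / 2) + max (2 * x - 3 / 2) 0) ≤
      (1 - d) * (min (2 * y) (1 / 2) + max (2 * y - 3 / 2) 0) :=
    mul_le_mul_of_nonneg_left (by linarith) (by linarith)
  have h4 : d * x ≤ d * y := mul_le_mul_of_nonneg_left h hd0
  linarith

theorem wf_zero (d : ℝ) : wf d 0 = 0 := by
  unfold wf
  norm_num

theorem wf_one (d : ℝ) : wf d 1 = 1 := by
  unfold wf
  norm_num

theorem wf_nonneg {d x : ℝ} (hd0 : 0 ≤ d) (hd1 : d ≤ 1) (h : 0 ≤ x) : 0 ≤ wf d x := by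
  rw [← wf_zero d]
  exact wf_mono hd0 hd1 h

theorem wf_le_one {d x : ℝ} (hd0 : 0 ≤ d) (hd1 : d ≤ 1) (h : x ≤ 1) : wf d x ≤ 1 := by
  rw [← wf_one d]
  exact wf_mono hd0 hd1 h

theorem wf_le {d x : ℝ} (hd0 : 0 ≤ d) (hd1 : d ≤ 1) (h0 : 0 ≤ x) :
    wf d x ≤ 2 * x := by
  unfold wf
  have h3 : min (2 * x) (1 / 2) + max (2 * x - 3 / 2) 0 ≤ 2 * x := by
    rcases le_total (2 * x) (1 / 2) with h | h
    · rw [min_eq_left h, max_eq_right (by linarith)]; linarith
    · rw [min_eq_right h]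
      rcases le_total (2 * x - 3 / 2) 0 with h' | h'
      · rw [max_eq_right h']; linarith
      · rw [max_eq_left h']; linarith
  nlinarith

theorem wf_flat {x : ℝ} (h0 : 1 / 4 ≤ x) (h1 : x ≤ 3 / 4) : wf 0 x = 1 / 2 := by
  unfold wf
  rw [min_eq_right (by linarith), max_eq_right (by linarith)]
  norm_num

theorem wf_eq {d x y : ℝ} (hd0 : 0 ≤ d) (hd1 : d ≤ 1) (hxy : x < y)
    (h : wf d x = wf d y) : d = 0 ∧ 1 / 4 ≤ x ∧ y ≤ 3 / 4 := by
  unfold wf at h
  have h1 : min (2 * x) (1 / 2) ≤ min (2 * y) (1 / 2) := min_le_min (by linarith) le_rfl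
  have h2 : max (2 * x - 3 / 2) 0 ≤ max (2 * y - 3 / 2) 0 := max_le_max (by linarith) le_rfl
  have h3 : (1 - d) * (min (2 * x) (1 / 2) + max (2 * x - 3 / 2) 0) ≤
      (1 - d) * (min (2 * y) (1 / 2) + max (2 * y - 3 / 2) 0) :=
    mul_le_mul_of_nonneg_left (by linarith) (by linarith)
  have hd : d = 0 := by
    by_contra hd
    have hd' : 0 < d := lt_of_le_of_ne hd0 (Ne.symm hd)
    have : d * x < d * y := mul_lt_mul_of_pos_left hxy hd'
    linarith
  subst hd
  refine ⟨rfl, ?_, ?_⟩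
  · by_contra hx
    push Not at hx
    have : min (2 * x) (1 / 2) < min (2 * y) (1 / 2) := by
      rw [min_eq_left (show 2 * x ≤ 1 / 2 by linarith)]
      exact lt_min (by linarith) (by linarith)
    linarith
  · by_contra hy
    push Not at hy
    have : max (2 * x - 3 / 2) 0 < max (2 * y - 3 / 2) 0 := by
      rw [max_eq_left (show 0 ≤ 2 * y - 3 / 2 by linarith)]
      exact max_lt (by linarith) (by linarith)
    linarith

/-- The radius as a function of the angular parameter `a ≤ 0`. -/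
noncomputable def rad (δ : ℕ → unitInterval) (a : ℝ) : ℝ :=
  ∑' l : ℕ, (1 / 2 : ℝ) ^ (l + 1) * wf (δ l) (cl (a + l + 1))

theorem summable_half : Summable fun l : ℕ => (1 / 2 : ℝ) ^ (l + 1) :=
  (summable_nat_add_iff 1).2 summable_geometric_two

theorem tsum_half : ∑' l : ℕ, (1 / 2 : ℝ) ^ (l + 1) = 1 := by
  have h := tsum_geometric_two
  rw [summable_geometric_two.tsum_eq_zero_add] at h
  simp only [pow_zero] at h
  linarith

theorem rad_term_nonneg (δ : ℕ → unitInterval) (a : ℝ) (l : ℕ) :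
    0 ≤ (1 / 2 : ℝ) ^ (l + 1) * wf (δ l) (cl (a + l + 1)) :=
  mul_nonneg (by positivity) (wf_nonneg (δ l).2.1 (δ l).2.2 (cl_nonneg _))

theorem rad_term_le (δ : ℕ → unitInterval) (a : ℝ) (l : ℕ) :
    (1 / 2 : ℝ) ^ (l + 1) * wf (δ l) (cl (a + l + 1)) ≤ (1 / 2 : ℝ) ^ (l + 1) :=
  mul_le_of_le_one_right (by positivity) (wf_le_one (δ l).2.1 (δ l).2.2 (cl_le_one _))

theorem rad_summable (δ : ℕ → unitInterval) (a : ℝ) :
    Summable fun l : ℕ => (1 / 2 : ℝ) ^ (l + 1) * wf (δ l) (cl (a + l + 1)) :=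
  Summable.of_nonneg_of_le (rad_term_nonneg δ a) (rad_term_le δ a) summable_half

theorem rad_term_mono (δ : ℕ → unitInterval) {a b : ℝ} (h : a ≤ b) (l : ℕ) :
    (1 / 2 : ℝ) ^ (l + 1) * wf (δ l) (cl (a + l + 1)) ≤
      (1 / 2 : ℝ) ^ (l + 1) * wf (δ l) (cl (b + l + 1)) :=
  mul_le_mul_of_nonneg_left (wf_mono (δ l).2.1 (δ l).2.2 (cl_mono (by linarith)))
    (by positivity)

theorem rad_mono (δ : ℕ → unitInterval) {a b : ℝ} (h : a ≤ b) : rad δ a ≤ rad δ b :=
  (rad_summable δ a).tsum_le_tsum (rad_term_mono δ h) (rad_summable δ b)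

theorem rad_zero (δ : ℕ → unitInterval) : rad δ 0 = 1 := by
  unfold rad
  refine Eq.trans ?_ tsum_half
  congr 1
  ext l
  rw [cl_of_one_le (by have : (0 : ℝ) ≤ l := Nat.cast_nonneg l
                       linarith), wf_one, mul_one]

theorem rad_pos (δ : ℕ → unitInterval) (a : ℝ) : 0 < rad δ a := by
  obtain ⟨l, hl⟩ := exists_nat_ge (-a)
  have h1 : (0 : ℝ) < (1 / 2 : ℝ) ^ (l + 1) * wf (δ l) (cl (a + l + 1)) := by
    rw [cl_of_one_le (by linarith), wf_one, mul_one]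
    positivity
  exact (rad_summable δ a).tsum_pos (rad_term_nonneg δ a) l h1

theorem rad_le (δ : ℕ → unitInterval) {a : ℝ} (ha : a ≤ 0) : rad δ a ≤ 1 :=
  (rad_mono δ ha).trans (rad_zero δ).le

/-- The radius decreases at least like `1/(1-a)`. -/
theorem rad_le_div (δ : ℕ → unitInterval) {a : ℝ} (ha : a ≤ 0) :
    rad δ a ≤ 8 * (1 / (1 - a)) := by
  -- termwise: `2^{-l-1} w ≤ (3/4)^l (1/(1-a)) · 2`
  have hpos : 0 < 1 - a := by linarith
  have hs : Summable fun l : ℕ => (2 * (1 / (1 - a))) * (3 / 4 : ℝ) ^ l :=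
    (summable_geometric_of_lt_one (by norm_num) (by norm_num)).mul_left _
  have hbound : ∀ l : ℕ, (1 / 2 : ℝ) ^ (l + 1) * wf (δ l) (cl (a + l + 1)) ≤
      (2 * (1 / (1 - a))) * (3 / 4 : ℝ) ^ l := by
    intro l
    have h1 : wf (δ l) (cl (a + l + 1)) ≤ 2 * ((l + 2 : ℝ) / (1 - a)) := by
      rcases le_total (a + l + 1) 0 with h | h
      · rw [cl_of_nonpos h, wf_zero]
        positivity
      · have : wf (δ l) (cl (a + l + 1)) ≤ 1 := wf_le_one (δ l).2.1 (δ l).2.2 (cl_le_one _)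
        have h2 : (1 : ℝ) ≤ (l + 2) / (1 - a) := by
          rw [le_div_iff₀ hpos]
          linarith
        linarith
    have h2 : (l + 2 : ℝ) ≤ 2 * (3 / 2 : ℝ) ^ l := by
      induction l with
      | zero => norm_num
      | succ l ih =>
        have h3 : (1 : ℝ) ≤ (3 / 2 : ℝ) ^ l := one_le_pow₀ (by norm_num)
        have ih' := ih (by
          rcases le_total (a + l + 1) 0 with h | h
          · rw [cl_of_nonpos h, wf_zero]
            positivity
          · have : wf (δ l) (cl (a + l + 1)) ≤ 1 := wf_le_one (δ l).2.1 (δ l).2.2 (cl_le_one _)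
            have h2 : (1 : ℝ) ≤ (l + 2) / (1 - a) := by
              rw [le_div_iff₀ hpos]
              linarith
            linarith)
        rw [pow_succ]
        push_cast
        linarith
    calc (1 / 2 : ℝ) ^ (l + 1) * wf (δ l) (cl (a + l + 1))
        ≤ (1 / 2 : ℝ) ^ (l + 1) * (2 * ((2 * (3 / 2 : ℝ) ^ l) / (1 - a))) := by
          apply mul_le_mul_of_nonneg_left _ (by positivity)
          refine h1.trans ?_
          apply mul_le_mul_of_nonneg_left _ (by norm_num)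
          exact div_le_div_of_nonneg_right h2 hpos.le
      _ = (2 * (1 / (1 - a))) * ((1 / 2 : ℝ) ^ l * (3 / 2 : ℝ) ^ l) := by
          rw [pow_succ]
          field_simp
      _ = (2 * (1 / (1 - a))) * (3 / 4 : ℝ) ^ l := by
          rw [← mul_pow]
          norm_num
  have := (rad_summable δ a).tsum_le_tsum hbound hs
  rw [tsum_mul_left, tsum_geometric_of_lt_one (by norm_num) (by norm_num)] at this
  unfold rad
  refine this.trans (le_of_eq ?_)
  ring

theorem continuous_rad : Continuous fun q : (ℕ → unitInterval) × ℝ => rad q.1 q.2 := by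
  unfold rad
  refine continuous_tsum (u := fun l => (1 / 2 : ℝ) ^ (l + 1)) ?_ summable_half ?_
  · intro l
    unfold wf cl
    have h1 : Continuous fun q : (ℕ → unitInterval) × ℝ => (q.1 l : ℝ) :=
      continuous_subtype_val.comp ((continuous_apply l).comp continuous_fst)
    fun_prop
  · intro l q
    rw [Real.norm_of_nonneg (rad_term_nonneg q.1 q.2 l)]
    exact rad_term_le q.1 q.2 l

/-- Equal radii at different parameters occur only on the flat part of a merged ring. -/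
theorem rad_eq {δ : ℕ → unitInterval} {a b : ℝ} (hab : a < b) (hb : b ≤ 0)
    (h : rad δ a = rad δ b) :
    ∃ l : ℕ, δ l = 0 ∧ -(l : ℝ) - 3 / 4 ≤ a ∧ b ≤ -(l : ℝ) - 1 / 4 := by
  obtain ⟨l, hl1, hl2⟩ : ∃ l : ℕ, (l : ℝ) ≤ -b ∧ -b < l + 1 :=
    ⟨⌊-b⌋₊, Nat.floor_le (by linarith), Nat.lt_floor_add_one _⟩
  refine ⟨l, ?_⟩
  have hlt : cl (a + l + 1) < cl (b + l + 1) := cl_lt (by linarith) (by linarith) (by linarith)
  have heq : wf (δ l) (cl (a + l + 1)) = wf (δ l) (cl (b + l + 1)) := by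
    by_contra hne
    have h1 : wf (δ l) (cl (a + l + 1)) < wf (δ l) (cl (b + l + 1)) :=
      lt_of_le_of_ne (wf_mono (δ l).2.1 (δ l).2.2 hlt.le) hne
    have h2 : rad δ a < rad δ b :=
      (rad_summable δ a).tsum_lt_tsum (i := l) (rad_term_mono δ hab.le)
        (mul_lt_mul_of_pos_left h1 (by positivity)) (rad_summable δ b)
    exact h2.ne h
  obtain ⟨h1, h2, h3⟩ := wf_eq (δ l).2.1 (δ l).2.2 hlt heq
  refine ⟨Subtype.ext h1, ?_, ?_⟩
  · have hpos : 0 < a + l + 1 := by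
      by_contra hn
      push Not at hn
      rw [cl_of_nonpos hn] at h2
      norm_num at h2
    rw [cl_of_mem hpos.le (by linarith)] at h2
    linarith
  · rw [cl_of_mem (by linarith) (by linarith)] at h3
    linarith

theorem rad_flat {δ : ℕ → unitInterval} {a b : ℝ} {l : ℕ} (hl : δ l = 0)
    (ha1 : -(l : ℝ) - 3 / 4 ≤ a) (ha2 : a ≤ -(l : ℝ) - 1 / 4)
    (hb1 : -(l : ℝ) - 3 / 4 ≤ b) (hb2 : b ≤ -(l : ℝ) - 1 / 4) : rad δ a = rad δ b := by
  unfold rad
  congr 1
  ext k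
  congr 1
  rcases lt_trichotomy k l with h | h | h
  · have : (k : ℝ) + 1 ≤ l := by exact_mod_cast h
    rw [cl_of_nonpos (by linarith), cl_of_nonpos (by linarith)]
  · subst h
    rw [hl]
    simp only [Set.Icc.coe_zero]
    rw [cl_of_mem (by linarith) (by linarith), cl_of_mem (by linarith) (by linarith),
      wf_flat (by linarith) (by linarith), wf_flat (by linarith) (by linarith)]
  · have : (l : ℝ) + 1 ≤ k := by exact_mod_cast h
    rw [cl_of_one_le (by linarith), cl_of_one_le (by linarith)]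

theorem rad_lt_one {δ : ℕ → unitInterval} {a : ℝ} (ha : a < 0) : rad δ a < 1 := by
  refine lt_of_le_of_ne (rad_le δ ha.le) ?_
  intro h
  rw [← rad_zero δ] at h
  obtain ⟨l, _, _, h3⟩ := rad_eq ha le_rfl h
  have : (0 : ℝ) ≤ l := Nat.cast_nonneg l
  linarith

end Pool.Agent.Helper62.AC
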