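import Pool.Agent.Helper62.AC.Radius

/-!
# The strands and their coincidences
-/

open Set Topology TopologicalSpace Filter

namespace Pool.Agent.Helper62.AC

/-- `exp(2πiθ)` -/
noncomputable def ee (θ : ℝ) : ℂ := Complex.exp (2 * Real.pi * θ * Complex.I)

theorem norm_ee (θ : ℝ) : ‖ee θ‖ = 1 := by
  unfold ee
  rw [show (2 * Real.pi * θ * Complex.I : ℂ) = ((2 * Real.pi * θ : ℝ) : ℂ) * Complex.I by
    push_cast; ring]
  exact Complex.norm_exp_ofReal_mul_I _

theorem ee_eq {θ η : ℝ} (h : ee θ = ee η) : ∃ n : ℤ, θ = η + n := by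
  unfold ee at h
  rw [Complex.exp_eq_exp_iff_exists_int] at h
  obtain ⟨n, hn⟩ := h
  refine ⟨n, ?_⟩
  have hpi : (2 * Real.pi * Complex.I : ℂ) ≠ 0 := Complex.two_pi_I_ne_zero
  have h1 : (θ : ℂ) = η + n := by
    apply mul_right_cancel₀ hpi
    calc (θ : ℂ) * (2 * Real.pi * Complex.I) = 2 * Real.pi * θ * Complex.I := by ring
      _ = 2 * Real.pi * η * Complex.I + n * (2 * Real.pi * Complex.I) := hn
      _ = _ := by ring
  exact_mod_cast h1

theorem ee_add_int (θ : ℝ) (n : ℤ) : ee (θ + n) = ee θ := by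
  unfold ee
  rw [Complex.exp_eq_exp_iff_exists_int]
  exact ⟨n, by push_cast; ring⟩

/-- Polar coordinates (`θ` in full turns). -/
noncomputable def pol (r θ : ℝ) : ℂ := r * ee θ

theorem norm_pol {r : ℝ} (hr : 0 ≤ r) (θ : ℝ) : ‖pol r θ‖ = r := by
  unfold pol
  rw [norm_mul, norm_ee, mul_one, Complex.norm_real, Real.norm_of_nonneg hr]

theorem pol_eq {r r' θ θ' : ℝ} (hr : 0 < r) (hr' : 0 ≤ r') (h : pol r θ = pol r' θ') :
    r = r' ∧ ∃ n : ℤ, θ = θ' + n := by
  have h1 : r = r' := by rw [← norm_pol hr.le θ, h, norm_pol hr']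
  subst h1
  refine ⟨rfl, ?_⟩
  unfold pol at h
  exact ee_eq (mul_left_cancel₀ (by exact_mod_cast hr.ne') h)

theorem continuous_pol : Continuous fun q : ℝ × ℝ => pol q.1 q.2 := by
  unfold pol ee
  fun_prop

/-- Outer twist of the strand `i`. -/
noncomputable def sg (i : ZMod 3) : ℝ := if i = 1 then -1 / 3 else if i = 2 then 1 / 3 else 0

/-- The angular parameter. -/
noncomputable def aa (s : ℝ) : ℝ := min 0 (1 - 1 / s)

/-- Radius along a strand. -/
noncomputable def rr (δ : ℕ → unitInterval) (s : ℝ) : ℝ := rad δ (aa s) + max (s - 1) 0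

/-- Angle along a strand. -/
noncomputable def an (i : ZMod 3) (s : ℝ) : ℝ := aa s + (i.val : ℝ) / 3 + sg i * max (s - 1) 0

/-- The strands. -/
noncomputable def St (δ : ℕ → unitInterval) (i : ZMod 3) (s : ℝ) : ℂ :=
  if s ≤ 0 then 0 else pol (rr δ s) (an i s)

theorem aa_of_le {s : ℝ} (h0 : 0 < s) (h1 : s ≤ 1) : aa s = 1 - 1 / s := by
  unfold aa
  apply min_eq_right
  have : 1 ≤ 1 / s := by rw [le_div_iff₀ h0]; linarith
  linarith

theorem aa_of_ge {s : ℝ} (h1 : 1 ≤ s) : aa s = 0 := by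
  unfold aa
  apply min_eq_left
  have : 1 / s ≤ 1 := by rw [div_le_iff₀ (by linarith)]; linarith
  linarith

theorem aa_nonpos (s : ℝ) : aa s ≤ 0 := min_le_left _ _

theorem rr_of_le {δ : ℕ → unitInterval} {s : ℝ} (h1 : s ≤ 1) : rr δ s = rad δ (aa s) := by
  unfold rr
  rw [max_eq_right (by linarith), add_zero]

theorem rr_of_ge {δ : ℕ → unitInterval} {s : ℝ} (h1 : 1 ≤ s) : rr δ s = s := by
  unfold rr
  rw [aa_of_ge h1, rad_zero, max_eq_left (by linarith)]
  ring

theorem rr_pos (δ : ℕ → unitInterval) (s : ℝ) : 0 < rr δ s :=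
  add_pos_of_pos_of_nonneg (rad_pos _ _) (le_max_right _ _)

theorem rr_le_one {δ : ℕ → unitInterval} {s : ℝ} (h1 : s ≤ 1) : rr δ s ≤ 1 := by
  rw [rr_of_le h1]
  exact rad_le δ (aa_nonpos s)

theorem an_of_le {i : ZMod 3} {s : ℝ} (h1 : s ≤ 1) : an i s = aa s + (i.val : ℝ) / 3 := by
  unfold an
  rw [max_eq_right (by linarith), mul_zero, add_zero]

theorem St_of_pos {δ : ℕ → unitInterval} {i : ZMod 3} {s : ℝ} (h : 0 < s) :
    St δ i s = pol (rr δ s) (an i s) := by
  unfold St
  rw [if_neg (by linarith)]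

theorem St_zero (δ : ℕ → unitInterval) (i : ZMod 3) : St δ i 0 = 0 := by
  unfold St
  rw [if_pos le_rfl]

theorem norm_St {δ : ℕ → unitInterval} {i : ZMod 3} {s : ℝ} (h : 0 < s) :
    ‖St δ i s‖ = rr δ s := by
  rw [St_of_pos h, norm_pol (rr_pos δ s).le]

theorem St_ne_zero {δ : ℕ → unitInterval} {i : ZMod 3} {s : ℝ} (h : 0 < s) :
    St δ i s ≠ 0 := by
  rw [← norm_ne_zero_iff, norm_St h]
  exact (rr_pos δ s).ne'

theorem norm_St_le {δ : ℕ → unitInterval} {i : ZMod 3} {s : ℝ} (h : s ≤ 1) :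
    ‖St δ i s‖ ≤ 8 * max s 0 := by
  rcases le_or_gt s 0 with h0 | h0
  · unfold St
    rw [if_pos h0, norm_zero]
    positivity
  · rw [norm_St h0, rr_of_le h, max_eq_left h0.le]
    have := rad_le_div δ (aa_nonpos s)
    rwa [aa_of_le h0 h, show 1 - (1 - 1 / s) = 1 / s by ring, one_div_one_div,
      ← aa_of_le h0 h] at this

theorem continuous_St (i : ZMod 3) :
    Continuous fun q : (ℕ → unitInterval) × ℝ => St q.1 i q.2 := by
  rw [continuous_iff_continuousAt]
  rintro ⟨δ, s⟩
  rcases lt_trichotomy s 0 with h | h | h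
  · have : (fun q : (ℕ → unitInterval) × ℝ => St q.1 i q.2) =ᶠ[𝓝 (δ, s)] fun _ => 0 := by
      have hU : {q : (ℕ → unitInterval) × ℝ | q.2 < 0} ∈ 𝓝 (δ, s) :=
        (isOpen_lt continuous_snd continuous_const).mem_nhds h
      filter_upwards [hU] with q hq
      unfold St
      rw [if_pos (le_of_lt hq)]
    exact continuousAt_const.congr this.symm
  · subst h
    unfold ContinuousAt
    simp only [St_zero]
    have hU : {q : (ℕ → unitInterval) × ℝ | q.2 < 1} ∈ 𝓝 (δ, (0 : ℝ)) :=
      (isOpen_lt continuous_snd continuous_const).mem_nhds (by norm_num)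
    refine squeeze_zero_norm' (a := fun q : (ℕ → unitInterval) × ℝ => 8 * max q.2 0) ?_ ?_
    · filter_upwards [hU] with q hq
      exact norm_St_le (le_of_lt hq)
    · have hc : Continuous fun q : (ℕ → unitInterval) × ℝ => 8 * max q.2 0 := by fun_prop
      have := hc.tendsto (δ, (0 : ℝ))
      simpa using this
  · have : (fun q : (ℕ → unitInterval) × ℝ => St q.1 i q.2) =ᶠ[𝓝 (δ, s)]
        fun q => pol (rr q.1 q.2) (an i q.2) := by
      have hU : {q : (ℕ → unitInterval) × ℝ | 0 < q.2} ∈ 𝓝 (δ, s) :=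
        (isOpen_lt continuous_const continuous_snd).mem_nhds h
      filter_upwards [hU] with q hq
      exact St_of_pos hq
    refine ContinuousAt.congr ?_ this.symm
    have haa : ContinuousAt (fun q : (ℕ → unitInterval) × ℝ => aa q.2) (δ, s) := by
      unfold aa
      refine continuousAt_const.min (continuousAt_const.sub ?_)
      exact continuousAt_const.div continuousAt_snd h.ne'
    have hrad : ContinuousAt (fun q : (ℕ → unitInterval) × ℝ => rad q.1 (aa q.2)) (δ, s) := by
      have h1 : ContinuousAt (fun q : (ℕ → unitInterval) × ℝ => (q.1, aa q.2)) (δ, s) :=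
        continuousAt_fst.prodMk haa
      exact (continuous_rad.continuousAt).comp' h1
    have hmax : ContinuousAt (fun q : (ℕ → unitInterval) × ℝ => max (q.2 - 1) 0) (δ, s) :=
      Continuous.continuousAt (by fun_prop)
    have h2 : ContinuousAt (fun q : (ℕ → unitInterval) × ℝ => (rr q.1 q.2, an i q.2)) (δ, s) := by
      unfold rr an
      exact (hrad.add hmax).prodMk
        ((haa.add continuousAt_const).add (continuousAt_const.mul hmax))
    exact (continuous_pol.continuousAt).comp' h2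

theorem continuous_St' (δ : ℕ → unitInterval) (i : ZMod 3) : Continuous (St δ i) := by
  have : Continuous fun s : ℝ => ((δ, s) : (ℕ → unitInterval) × ℝ) := by fun_prop
  exact (continuous_St i).comp this

/-- The overlap map. -/
noncomputable def sig (t : ℝ) : ℝ := 1 / (1 / t - 1 / 3)

theorem zmod3_eq_of_int {i j : ZMod 3} {n k : ℤ} (h : (i.val : ℤ) = j.val + k + 3 * n) :
    i = j + k := by
  have h1 : ((i.val : ℤ) : ZMod 3) = (((j.val : ℤ) + k + 3 * n : ℤ) : ZMod 3) := by rw [h]
  have h3 : (3 : ZMod 3) = 0 := rfl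
  push_cast at h1
  rw [ZMod.natCast_zmod_val, ZMod.natCast_zmod_val, h3, zero_mul, add_zero] at h1
  exact h1

theorem zmod3_val_lt (i : ZMod 3) : i.val < 3 := ZMod.val_lt i

/-- Coincidences of the inner parts of the strands. -/
theorem inner_kernel {δ : ℕ → unitInterval} {i j : ZMod 3} {s t : ℝ} (hs : 0 < s) (hst : s ≤ t)
    (ht : t ≤ 1) (h : St δ i s = St δ j t) :
    (i = j ∧ s = t) ∨ ∃ l : ℕ, δ l = 0 ∧ i = j + 1 ∧
      1 / ((l : ℝ) + 7 / 4) ≤ s ∧ s ≤ 1 / ((l : ℝ) + 19 / 12) ∧ t = sig s := by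
  have ht0 : 0 < t := hs.trans_le hst
  rw [St_of_pos hs, St_of_pos ht0] at h
  obtain ⟨h1, n, h2⟩ := pol_eq (rr_pos _ _) (rr_pos _ _).le h
  rw [rr_of_le (hst.trans ht), rr_of_le ht, aa_of_le hs (hst.trans ht), aa_of_le ht0 ht] at h1
  rw [an_of_le (hst.trans ht), an_of_le ht, aa_of_le hs (hst.trans ht), aa_of_le ht0 ht] at h2
  rcases eq_or_lt_of_le hst with rfl | hlt
  · left
    refine ⟨?_, rfl⟩
    have h3 : (i.val : ℝ) = j.val + 3 * n := by linarith
    have h4 : (i.val : ℤ) = j.val + 0 + 3 * n := by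
      have : ((i.val : ℤ) : ℝ) = ((j.val + 0 + 3 * n : ℤ) : ℝ) := by push_cast; linarith
      exact_mod_cast this
    simpa using zmod3_eq_of_int h4
  · right
    have hab : 1 - 1 / s < 1 - 1 / t := by
      have := one_div_lt_one_div_of_lt hs hlt
      linarith
    have hb0 : 1 - 1 / t ≤ 0 := by
      have : 1 ≤ 1 / t := by rw [le_div_iff₀ ht0]; linarith
      linarith
    obtain ⟨l, hl, hl1, hl2⟩ := rad_eq hab hb0 h1
    have h3 : 3 * (1 / s - 1 / t) = (i.val : ℝ) - j.val - 3 * n := by linarith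
    have h4 : (i.val : ℤ) - j.val - 3 * n = 1 := by
      have h5 : (0 : ℝ) < ((i.val : ℤ) - j.val - 3 * n : ℤ) := by
        push_cast
        linarith
      have h6 : (((i.val : ℤ) - j.val - 3 * n : ℤ) : ℝ) < 2 := by
        push_cast
        linarith
      have h5' : (0 : ℤ) < (i.val : ℤ) - j.val - 3 * n := by exact_mod_cast h5
      have h6' : (i.val : ℤ) - j.val - 3 * n < 2 := by exact_mod_cast h6
      omega
    have h7 : i = j + 1 := by
      have : (i.val : ℤ) = j.val + 1 + 3 * n := by linarith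
      simpa using zmod3_eq_of_int this
    have h8 : 1 / s - 1 / t = 1 / 3 := by
      have : ((i.val : ℝ) - j.val - 3 * n) = 1 := by exact_mod_cast h4
      linarith
    have hl0 : (0 : ℝ) ≤ l := Nat.cast_nonneg l
    refine ⟨l, hl, h7, ?_, ?_, ?_⟩
    · rw [div_le_iff₀ (by linarith)]
      have h9 : 1 / s ≤ l + 7 / 4 := by linarith
      rw [div_le_iff₀ hs] at h9
      linarith
    · rw [le_div_iff₀ (by linarith)]
      have h9 : l + 19 / 12 ≤ 1 / s := by linarith
      rw [le_div_iff₀ hs] at h9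
      linarith
    · unfold sig
      rw [show 1 / s - 1 / 3 = 1 / t by linarith, one_div_one_div]

/-- The overlap of neighbouring strands at a merged ring. -/
theorem St_overlap {δ : ℕ → unitInterval} {l : ℕ} (hl : δ l = 0) {t : ℝ}
    (h1 : 1 / ((l : ℝ) + 7 / 4) ≤ t) (h2 : t ≤ 1 / ((l : ℝ) + 19 / 12)) (i : ZMod 3) :
    St δ (i + 1) t = St δ i (sig t) := by
  have hl0 : (0 : ℝ) ≤ l := Nat.cast_nonneg l
  have ht0 : 0 < t := lt_of_lt_of_le (by positivity) h1
  have hi1 : 1 / t ≤ l + 7 / 4 := by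
    rw [div_le_iff₀ (by linarith)] at h1
    rw [div_le_iff₀ ht0]
    linarith
  have hi2 : l + 19 / 12 ≤ 1 / t := by
    rw [le_div_iff₀ (by linarith)] at h2
    rw [le_div_iff₀ ht0]
    linarith
  have ht1 : t ≤ 1 := h2.trans (by rw [div_le_iff₀ (by linarith)]; linarith)
  have hinv : 1 / sig t = 1 / t - 1 / 3 := by unfold sig; rw [one_div_one_div]
  have hs0 : 0 < sig t := by unfold sig; exact one_div_pos.2 (by linarith)
  have hs1 : sig t ≤ 1 := by
    unfold sig
    rw [div_le_iff₀ (by linarith)]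
    linarith
  rw [St_of_pos ht0, St_of_pos hs0]
  have hr : rr δ t = rr δ (sig t) := by
    rw [rr_of_le ht1, rr_of_le hs1, aa_of_le ht0 ht1, aa_of_le hs0 hs1, hinv]
    exact rad_flat hl (by linarith) (by linarith) (by linarith) (by linarith)
  rw [hr]
  unfold pol
  congr 1
  rw [an_of_le ht1, an_of_le hs1, aa_of_le ht0 ht1, aa_of_le hs0 hs1, hinv]
  -- the two angles differ by an integer
  have hval : ∃ n : ℤ, ((i + 1).val : ℝ) = i.val + 1 + 3 * n := by
    have : ∀ i : ZMod 3, (i + 1).val = i.val + 1 ∨ (i + 1).val + 3 = i.val + 1 := by decide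
    rcases this i with h | h
    · exact ⟨0, by rw [h]; push_cast; ring⟩
    · refine ⟨-1, ?_⟩
      have h' : (((i + 1).val + 3 : ℕ) : ℝ) = ((i.val + 1 : ℕ) : ℝ) := by rw [h]
      push_cast at h' ⊢
      linarith
  obtain ⟨n, hn⟩ := hval
  rw [hn]
  refine Eq.trans ?_ (ee_add_int _ n)
  congr 1
  ring

/-- The embedding of the triangle of the gadget. -/
noncomputable def Psi (q : ℝ × ℝ) : ℂ := pol (1 + q.1) (q.2 / 12)

theorem continuous_Psi : Continuous Psi := by
  unfold Psi
  exact continuous_pol.comp (by fun_prop : Continuous fun q : ℝ × ℝ => (1 + q.1, q.2 / 12))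

theorem norm_Psi {q : ℝ × ℝ} (h : 0 ≤ q.1) : ‖Psi q‖ = 1 + q.1 := norm_pol (by linarith) _

theorem Psi_inj {q q' : ℝ × ℝ} (h0 : 0 ≤ q.1) (h1 : 0 ≤ q.2) (h2 : q.2 ≤ 1) (h0' : 0 ≤ q'.1)
    (h1' : 0 ≤ q'.2) (h2' : q'.2 ≤ 1) (h : Psi q = Psi q') : q = q' := by
  obtain ⟨h3, n, hn⟩ := pol_eq (by linarith) (by linarith) h
  have hn0 : n = 0 := by
    have h4 : (n : ℝ) < 1 := by linarith
    have h5 : (-1 : ℝ) < n := by linarith
    have h4' : n < 1 := by exact_mod_cast h4
    have h5' : -1 < n := by exact_mod_cast h5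
    omega
  subst hn0
  refine Prod.ext (by linarith) ?_
  push_cast at hn
  linarith

/-- Coincidences of the gadget with the strands. -/
theorem Psi_eq_St {δ : ℕ → unitInterval} {i : ZMod 3} {q : ℝ × ℝ} {s : ℝ} (hs : 0 < s)
    (hs2 : s ≤ 2) (hi : i = 0 → s ≤ 1) (h0 : 0 ≤ q.1) (h1 : 0 ≤ q.2) (h2 : q.1 + q.2 ≤ 1)
    (h3 : q.1 = 0 → q.2 = 0) (h : Psi q = St δ i s) :
    (q = (0, 0) ∧ s = 1 ∧ i = 0) ∨ (q = (1, 0) ∧ s = 2) := by
  rw [St_of_pos hs] at h
  obtain ⟨h4, n, hn⟩ := pol_eq (by linarith) (rr_pos _ _).le h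
  rcases le_or_gt s 1 with hs1 | hs1
  · left
    have h5 : q.1 = 0 := by
      have := rr_le_one (δ := δ) hs1
      linarith
    have h6 : s = 1 := by
      by_contra hne
      have hlt : s < 1 := lt_of_le_of_ne hs1 hne
      have : aa s < 0 := by
        rw [aa_of_le hs hs1]
        have : 1 < 1 / s := by rw [lt_div_iff₀ hs]; linarith
        linarith
      have h7 := rad_lt_one (δ := δ) this
      rw [rr_of_le hs1] at h4
      linarith
    have h7 := h3 h5
    refine ⟨Prod.ext h5 h7, h6, ?_⟩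
    subst h6
    rw [an_of_le le_rfl, aa_of_ge le_rfl, h7] at hn
    have h8 : (i.val : ℤ) = (0 : ZMod 3).val + 0 + 3 * (-n) := by
      have : ((i.val : ℤ) : ℝ) = (((0 : ZMod 3).val + 0 + 3 * (-n) : ℤ) : ℝ) := by
        rw [ZMod.val_zero]
        push_cast
        linarith
      exact_mod_cast this
    simpa using zmod3_eq_of_int h8
  · right
    have h5 : s = 1 + q.1 := by rw [rr_of_ge hs1.le] at h4; exact h4.symm
    unfold an at hn
    rw [aa_of_ge hs1.le, max_eq_left (by linarith)] at hn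
    have hi3 : i = 0 ∨ i = 1 ∨ i = 2 := by
      have : ∀ i : ZMod 3, i = 0 ∨ i = 1 ∨ i = 2 := by decide
      exact this i
    rcases hi3 with rfl | rfl | rfl
    · exact absurd (hi rfl) (by linarith)
    · have hsg : sg 1 = -1 / 3 := by unfold sg; rw [if_pos rfl]
      have hv : ((1 : ZMod 3).val : ℝ) = 1 := by
        have : (1 : ZMod 3).val = 1 := by decide
        rw [this]; norm_num
      rw [hsg, hv] at hn
      have hn0 : n = 0 := by
        have h6 : (n : ℝ) < 1 := by linarith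
        have h7 : (-1 : ℝ) < n := by linarith
        have h6' : n < 1 := by exact_mod_cast h6
        have h7' : -1 < n := by exact_mod_cast h7
        omega
      subst hn0
      push_cast at hn
      have h8 : q.1 = 1 := by linarith
      exact ⟨Prod.ext h8 (by linarith), by linarith⟩
    · have hsg : sg 2 = 1 / 3 := by
        unfold sg
        rw [if_neg (by decide), if_pos rfl]
      have hv : ((2 : ZMod 3).val : ℝ) = 2 := by
        have : (2 : ZMod 3).val = 2 := by decide
        rw [this]; norm_num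
      rw [hsg, hv] at hn
      have hn0 : n = -1 := by
        have h6 : (n : ℝ) < 0 := by linarith
        have h7 : (-2 : ℝ) < n := by linarith
        have h6' : n < 0 := by exact_mod_cast h6
        have h7' : -2 < n := by exact_mod_cast h7
        omega
      subst hn0
      push_cast at hn
      have h8 : q.1 = 1 := by linarith
      exact ⟨Prod.ext h8 (by linarith), by linarith⟩

/-- Coincidences of the outer parts of the strands `1` and `2`. -/
theorem outer_kernel {δ : ℕ → unitInterval} {i j : ZMod 3} {s t : ℝ} (hs : 0 < s)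
    (hs2 : s ≤ 2) (ht : 1 < t) (hi : i ≠ 0) (hj : j ≠ 0) (h : St δ i s = St δ j t) :
    (i = j ∧ s = t) ∨ (s = 2 ∧ t = 2) := by
  rw [St_of_pos hs, St_of_pos (by linarith)] at h
  obtain ⟨h4, n, hn⟩ := pol_eq (rr_pos _ _) (rr_pos _ _).le h
  rw [rr_of_ge ht.le] at h4
  have hs1 : 1 < s := by
    by_contra hs1
    push Not at hs1
    have := rr_le_one (δ := δ) hs1
    linarith
  rw [rr_of_ge hs1.le] at h4
  subst h4
  unfold an at hn
  rw [aa_of_ge hs1.le, max_eq_left (by linarith)] at hn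
  have hi3 : ∀ i : ZMod 3, i ≠ 0 → i = 1 ∨ i = 2 := by decide
  have hsg1 : sg 1 = -1 / 3 := by unfold sg; rw [if_pos rfl]
  have hv1 : ((1 : ZMod 3).val : ℝ) = 1 := by
    have : (1 : ZMod 3).val = 1 := by decide
    rw [this]; norm_num
  have hsg2 : sg 2 = 1 / 3 := by
    unfold sg
    rw [if_neg (by decide), if_pos rfl]
  have hv2 : ((2 : ZMod 3).val : ℝ) = 2 := by
    have : (2 : ZMod 3).val = 2 := by decide
    rw [this]; norm_num
  rcases hi3 i hi with rfl | rfl <;> rcases hi3 j hj with rfl | rfl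
  · exact Or.inl ⟨rfl, rfl⟩
  · right
    rw [hsg1, hsg2, hv1, hv2] at hn
    have hn0 : n = -1 := by
      have h6 : (n : ℝ) < 0 := by linarith
      have h7 : (-2 : ℝ) < n := by linarith
      have h6' : n < 0 := by exact_mod_cast h6
      have h7' : -2 < n := by exact_mod_cast h7
      omega
    subst hn0
    push_cast at hn
    exact ⟨by linarith, by linarith⟩
  · right
    rw [hsg1, hsg2, hv1, hv2] at hn
    have hn0 : n = 1 := by
      have h6 : (n : ℝ) < 2 := by linarith
      have h7 : (0 : ℝ) < n := by linarith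
      have h6' : n < 2 := by exact_mod_cast h6
      have h7' : 0 < n := by exact_mod_cast h7
      omega
    subst hn0
    push_cast at hn
    exact ⟨by linarith, by linarith⟩
  · exact Or.inl ⟨rfl, rfl⟩

/-- All strands end at the point `2`. -/
theorem St_two (δ : ℕ → unitInterval) (i : ZMod 3) : St δ i 2 = 2 := by
  rw [St_of_pos (by norm_num), rr_of_ge (by norm_num)]
  have h : ∃ n : ℤ, an i 2 = 0 + n := by
    unfold an
    rw [aa_of_ge (by norm_num), max_eq_left (by norm_num)]
    have hi3 : ∀ i : ZMod 3, i = 0 ∨ i = 1 ∨ i = 2 := by decide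
    rcases hi3 i with rfl | rfl | rfl
    · refine ⟨0, ?_⟩
      have : sg 0 = 0 := by
        unfold sg
        rw [if_neg (by decide), if_neg (by decide)]
      rw [this, ZMod.val_zero]
      norm_num
    · refine ⟨0, ?_⟩
      have hsg1 : sg 1 = -1 / 3 := by unfold sg; rw [if_pos rfl]
      have hv1 : (1 : ZMod 3).val = 1 := by decide
      rw [hsg1, hv1]
      norm_num
    · refine ⟨1, ?_⟩
      have hsg2 : sg 2 = 1 / 3 := by
        unfold sg
        rw [if_neg (by decide), if_pos rfl]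
      have hv2 : (2 : ZMod 3).val = 2 := by decide
      rw [hsg2, hv2]
      norm_num
  obtain ⟨n, hn⟩ := h
  unfold pol
  rw [hn, ee_add_int]
  unfold ee
  simp

end Pool.Agent.Helper62.AC
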